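import Pool.Agent.R823.CC.Stm

set_option autoImplicit false

namespace Pool.Agent.R823.CC

open Polynomial IsLocalRing

universe u

namespace CHAIN1

variable {B : Type u} [CommRing B] [IsLocalRing B]

/-- representative of a residue class -/
noncomputable def rep (a : ResidueField B) : B := Function.surjInv residue_surjective a

lemma residue_rep (a : ResidueField B) : residue B (rep a) = a :=
  Function.surjInv_eq residue_surjective a

/-- `(a, y) ↦ γ^s * rep a + y`. -/
noncomputable def mp (γ : B) (s : ℕ) (z : ResidueField B × Ideal.span {γ ^ (s + 1)}) :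
    Ideal.span {γ ^ s} :=
  ⟨γ ^ s * rep z.1 + z.2, by
    refine Ideal.add_mem _ ?_ ?_
    · exact Ideal.mul_mem_right _ _ (Ideal.mem_span_singleton_self _)
    · have h := z.2.2
      rw [Ideal.mem_span_singleton] at h ⊢
      exact (pow_dvd_pow γ (Nat.le_succ s)).trans h⟩

lemma mp_surj {γ : B} (hγ : maximalIdeal B = Ideal.span {γ}) (s : ℕ) :
    Function.Surjective (mp γ s) := by
  rintro ⟨x, hx⟩
  obtain ⟨b, rfl⟩ := Ideal.mem_span_singleton.1 hx
  have h1 : b - rep (residue B b) ∈ maximalIdeal B := by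
    rw [← residue_eq_zero_iff, map_sub, residue_rep, sub_self]
  rw [hγ, Ideal.mem_span_singleton] at h1
  obtain ⟨c, hc⟩ := h1
  refine ⟨(residue B b, ⟨γ ^ (s + 1) * c, ?_⟩), ?_⟩
  · exact Ideal.mul_mem_right _ _ (Ideal.mem_span_singleton_self _)
  · apply Subtype.ext
    show γ ^ s * rep (residue B b) + γ ^ (s + 1) * c = γ ^ s * b
    have : b = rep (residue B b) + γ * c := by rw [← hc]; ring
    conv_rhs => rw [this]
    ring

lemma mp_inj {γ : B} (hγ : maximalIdeal B = Ideal.span {γ}) (s : ℕ) (hs : γ ^ s ≠ 0) :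
    Function.Injective (mp γ s) := by
  rintro ⟨a, y, hy⟩ ⟨a', y', hy'⟩ h
  have h0 : γ ^ s * rep a + y = γ ^ s * rep a' + y' := congrArg Subtype.val h
  have haa : a = a' := by
    by_contra hne
    have hu : IsUnit (rep a - rep a') := by
      by_contra hnu
      have h1 : rep a - rep a' ∈ maximalIdeal B := (mem_maximalIdeal _).2 hnu
      rw [← residue_eq_zero_iff, map_sub, residue_rep, residue_rep, sub_eq_zero] at h1
      exact hne h1
    obtain ⟨c, hc⟩ := Ideal.mem_span_singleton.1 hy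
    obtain ⟨c', hc'⟩ := Ideal.mem_span_singleton.1 hy'
    obtain ⟨w, hw⟩ := hu
    have h2 : γ ^ s * (w : B) = γ ^ (s + 1) * (c' - c) := by
      rw [hw]
      have : γ ^ s * (rep a - rep a') = y' - y := by linear_combination h0
      rw [this, hc, hc']
      ring
    have h3 : γ ^ s = γ ^ (s + 1) * ((c' - c) * ((w⁻¹ : Bˣ) : B)) := by
      calc γ ^ s = (γ ^ s * (w : B)) * ((w⁻¹ : Bˣ) : B) := by
            rw [mul_assoc, Units.mul_inv, mul_one]
        _ = _ := by rw [h2]; ring
    have h4 : γ ^ s * (1 - γ * ((c' - c) * ((w⁻¹ : Bˣ) : B))) = 0 := by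
      have h5 : γ ^ s * (1 - γ * ((c' - c) * ((w⁻¹ : Bˣ) : B))) =
          γ ^ s - γ ^ (s + 1) * ((c' - c) * ((w⁻¹ : Bˣ) : B)) := by ring
      rw [h5, ← h3, sub_self]
    have hu2 : IsUnit (1 - γ * ((c' - c) * ((w⁻¹ : Bˣ) : B))) := by
      by_contra hnu
      have h6 : (1 - γ * ((c' - c) * ((w⁻¹ : Bˣ) : B))) ∈ maximalIdeal B :=
        (mem_maximalIdeal _).2 hnu
      have h7 : γ * ((c' - c) * ((w⁻¹ : Bˣ) : B)) ∈ maximalIdeal B := by
        rw [hγ]
        exact Ideal.mul_mem_right _ _ (Ideal.mem_span_singleton_self _)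
      have h8 := Ideal.add_mem _ h6 h7
      rw [sub_add_cancel] at h8
      exact (mem_maximalIdeal (1 : B)).1 h8 isUnit_one
    exact hs ((hu2.mul_left_eq_zero).1 h4)
  subst haa
  have hyy : y = y' := by linear_combination h0
  subst hyy
  rfl

lemma card_le [Finite B] {γ : B} (hγ : maximalIdeal B = Ideal.span {γ}) (s : ℕ) :
    Nat.card (Ideal.span {γ ^ s} : Ideal B) ≤
      Nat.card (ResidueField B) * Nat.card (Ideal.span {γ ^ (s + 1)} : Ideal B) := by
  have : Finite (ResidueField B) := Finite.of_surjective _ residue_surjective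
  rw [← Nat.card_prod]
  exact Nat.card_le_card_of_surjective _ (mp_surj hγ s)

lemma card_eq {γ : B} (hγ : maximalIdeal B = Ideal.span {γ}) (s : ℕ) (hs : γ ^ s ≠ 0) :
    Nat.card (Ideal.span {γ ^ s} : Ideal B) =
      Nat.card (ResidueField B) * Nat.card (Ideal.span {γ ^ (s + 1)} : Ideal B) := by
  rw [← Nat.card_prod]
  exact (Nat.card_congr (Equiv.ofBijective _ ⟨mp_inj hγ s hs, mp_surj hγ s⟩)).symm

lemma card_zero (γ : B) : Nat.card (Ideal.span {γ ^ 0} : Ideal B) = Nat.card B := by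
  rw [pow_zero, Ideal.span_singleton_one]
  exact Nat.card_congr (Equiv.Set.univ B)

lemma card_end {γ : B} {e : ℕ} (he : γ ^ e = 0) :
    Nat.card (Ideal.span {γ ^ e} : Ideal B) = 1 := by
  rw [he, Ideal.span_singleton_eq_bot.2 rfl]
  exact Nat.card_unique

lemma le_iter [Finite B] {γ : B} (hγ : maximalIdeal B = Ideal.span {γ}) (k : ℕ) :
    Nat.card B ≤ Nat.card (ResidueField B) ^ k * Nat.card (Ideal.span {γ ^ k} : Ideal B) := by
  induction k with
  | zero => rw [card_zero, pow_zero, one_mul]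
  | succ k ih =>
    refine ih.trans ?_
    rw [pow_succ (Nat.card (ResidueField B)) k, mul_assoc]
    exact Nat.mul_le_mul_left _ (card_le hγ k)

lemma eq_iter {γ : B} (hγ : maximalIdeal B = Ideal.span {γ}) (k : ℕ)
    (hk : ∀ j < k, γ ^ j ≠ 0) :
    Nat.card B = Nat.card (ResidueField B) ^ k * Nat.card (Ideal.span {γ ^ k} : Ideal B) := by
  induction k with
  | zero => rw [card_zero, pow_zero, one_mul]
  | succ k ih =>
    rw [ih fun j hj => hk j (Nat.lt_succ_of_lt hj), card_eq hγ k (hk k (Nat.lt_succ_self k)),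
      pow_succ (Nat.card (ResidueField B)) k, mul_assoc]

end CHAIN1

theorem sCHAIN1 : S_CHAIN1.{u} := by
  intro B _ _ _ γ e hγ he
  refine ⟨?_, fun h => ?_⟩
  · have h1 := CHAIN1.le_iter hγ e
    rwa [CHAIN1.card_end he, mul_one] at h1
  · have h1 := CHAIN1.eq_iter hγ e h
    rwa [CHAIN1.card_end he, mul_one] at h1

end Pool.Agent.R823.CC
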