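import Mathlib

/-! Definitions for the count of circulant matrices with given determinant over a finite chain ring -/

namespace Pool.Agent.R823.CC

open Polynomial

universe u

/-- The circulant matrix `cir(v 0, …, v (n-1))`: entry `(i,j)` is `v ((j-i) mod n)`. -/
def cir {R : Type u} {n : ℕ} (v : Fin n → R) : Matrix (Fin n) (Fin n) R :=
  Matrix.of fun i j => v (j - i)

/-- `c_n(R,a)`: the number of `n × n` circulant matrices over `R` with determinant `a`. -/
noncomputable def circCount (R : Type u) [CommRing R] (n : ℕ) (a : R) : ℕ :=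
  Nat.card {M : Matrix (Fin n) (Fin n) R // (∃ v : Fin n → R, M = cir v) ∧ M.det = a}

/-- Index set: for every divisor `d` of `n` there are `φ(d)/ord_d(q)` indices. -/
abbrev Idx (n q : ℕ) : Type :=
  Σ d : {d : ℕ // d ∈ n.divisors}, Fin (Nat.totient d.1 / orderOf (q : ZMod d.1))

/-- weight of an index: `ord_d(q)`. -/
noncomputable def deg {n q : ℕ} (i : Idx n q) : ℕ := orderOf (q : ZMod i.1.1)

/-- `P(s)`: the number of `f : Idx → ℕ` with `∑ deg i * f i = s`. -/
noncomputable def P (n q s : ℕ) : ℕ :=
  Nat.card {f : Idx n q → ℕ // ∑ i, deg i * f i = s}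

/-- `R[x]/(x^n - 1)`. -/
noncomputable abbrev AA (R : Type u) [CommRing R] (n : ℕ) : Type u := AdjoinRoot (X ^ n - 1 : R[X])

end Pool.Agent.R823.CC
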