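import Mathlib
import Pool.Agent.R823.CC.Defs

/-! Exact statements of the pieces of PROJECT CC (MP_975ab8_al). -/

namespace Pool.Agent.R823.CC

open Polynomial IsLocalRing

universe u

/-- circulant determinants are norms from `R[x]/(x^n-1)`. -/
def S_CIRC : Prop := ∀ (R : Type u) [CommRing R] [Finite R] [Nontrivial R] (n : ℕ) (_ : 0 < n) (a : R),
  circCount R n a = Nat.card {f : AA R n // Algebra.norm R f = a}

/-- a chain ring of length at most `e` has at most `Q^e` elements. -/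
def S_CHAIN1 : Prop := ∀ (B : Type u) [CommRing B] [Finite B] [IsLocalRing B] (γ : B) (e : ℕ)
  (_ : maximalIdeal B = Ideal.span {γ}) (_ : γ ^ e = 0),
  Nat.card B ≤ (Nat.card (ResidueField B)) ^ e ∧
  ((∀ k < e, γ ^ k ≠ 0) → Nat.card B = (Nat.card (ResidueField B)) ^ e)

/-- structure of a chain ring of full length `e`. -/
def S_CHAIN2 : Prop := ∀ (B : Type u) [CommRing B] [Finite B] [IsLocalRing B] (γ : B) (e : ℕ)
  (_ : maximalIdeal B = Ideal.span {γ}) (_ : γ ^ e = 0)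
  (_ : Nat.card B = (Nat.card (ResidueField B)) ^ e),
  (∀ x : B, ∃ s ≤ e, ∃ u : Bˣ, x = γ ^ s * u) ∧
  (∀ s ≤ e, ∀ t ≤ e, ∀ u v : Bˣ, γ ^ s * (u : B) = γ ^ t * v → s = t) ∧
  (∀ s < e, Nat.card {x : B // ∃ u : Bˣ, x = γ ^ s * u} =
    (Nat.card (ResidueField B)) ^ (e - s) - (Nat.card (ResidueField B)) ^ (e - s - 1))

/-- decomposition of a finite ring `A` with `A/γA` reduced and `γ^e = 0`. -/
def S_DECOMP : Prop := ∀ (A : Type u) [CommRing A] [Finite A] (γ : A) (e : ℕ) (_ : 0 < e)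
  (_ : γ ^ e = 0) (_ : IsReduced (A ⧸ Ideal.span {γ})),
  Function.Bijective (fun (a : A) (i : MaximalSpectrum A) => Ideal.Quotient.mk (i.asIdeal ^ e) a) ∧
  ∀ i : MaximalSpectrum A, ∃ _h : IsLocalRing (A ⧸ i.asIdeal ^ e),
    maximalIdeal (A ⧸ i.asIdeal ^ e) = Ideal.span {Ideal.Quotient.mk (i.asIdeal ^ e) γ} ∧
    Nat.card (ResidueField (A ⧸ i.asIdeal ^ e)) = Nat.card (A ⧸ i.asIdeal)

/-- norm of `1 - ε + c ε` for an idempotent `ε`. -/
def S_NORM : Prop := ∀ (R : Type u) [CommRing R] [Finite R] [IsLocalRing R]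
  (A : Type u) [CommRing A] [Algebra R A] [Module.Free R A] [Module.Finite R A]
  (ε : A) (_ : ε * ε = ε) (r : ℕ)
  (_ : Nat.card (Ideal.span {ε} : Ideal A) = (Nat.card R) ^ r) (c : R),
  Algebra.norm R (1 - ε + algebraMap R A c * ε) = c ^ r

/-- norm of an element with prescribed component valuations -/
def S_NV : Prop := ∀ (R : Type u) [CommRing R] [Finite R] [IsLocalRing R]
  (A : Type u) [CommRing A] [Algebra R A] [Module.Free R A] [Module.Finite R A]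
  [Fintype (MaximalSpectrum A)] (γ : R) (e : ℕ) (_ : γ ^ e = 0) (r : MaximalSpectrum A → ℕ)
  (_ : Function.Bijective
    (fun (a : A) (i : MaximalSpectrum A) => Ideal.Quotient.mk (i.asIdeal ^ e) a))
  (_ : ∀ i : MaximalSpectrum A, Nat.card (A ⧸ i.asIdeal ^ e) = (Nat.card R) ^ (r i))
  (s : MaximalSpectrum A → ℕ) (f : A)
  (_ : ∀ i : MaximalSpectrum A, ∃ u : (A ⧸ i.asIdeal ^ e)ˣ,
    Ideal.Quotient.mk (i.asIdeal ^ e) f =
      (Ideal.Quotient.mk (i.asIdeal ^ e) (algebraMap R A γ)) ^ (s i) * u),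
  ∃ b : Rˣ, Algebra.norm R f = γ ^ (∑ i, r i * s i) * b

/-- `k[x]/(x^n-1)` is reduced, and so on: residue fields of `R[x]/(x^n-1)`. -/
def S_FACT : Prop := ∀ (R : Type u) [CommRing R] [Finite R] [IsLocalRing R] (γ : R)
  (_ : maximalIdeal R = Ideal.span {γ}) (_ : IsNilpotent γ) (n : ℕ) (_ : 0 < n)
  (_ : Nat.Coprime n (Nat.card (ResidueField R))),
  IsReduced (AA R n ⧸ Ideal.span {algebraMap R (AA R n) γ}) ∧
  ∃ σ : MaximalSpectrum (AA R n) ≃ Idx n (Nat.card (ResidueField R)),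
    ∀ m, Nat.card (AA R n ⧸ m.asIdeal) = (Nat.card (ResidueField R)) ^ deg (σ m)

/-- field version of `S_FACT` : maximal ideals of `k[x]/(x^n-1)`. -/
def S_FACTk : Prop := ∀ (k : Type u) [Field k] [Finite k] (n : ℕ) (_ : 0 < n)
  (_ : Nat.Coprime n (Nat.card k)),
  IsReduced (AA k n) ∧
  ∃ σ : MaximalSpectrum (AA k n) ≃ Idx n (Nat.card k),
    ∀ m, Nat.card (AA k n ⧸ m.asIdeal) = (Nat.card k) ^ deg (σ m)

/-- arithmetic of the final summation. -/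
def S_SUM : Prop := ∀ (ι : Type) [Fintype ι] [DecidableEq ι] (m : ι → ℕ) (q e s : ℕ) (_ : 2 ≤ q) (_ : ∀ i, 0 < m i)
  (_ : s < e),
  ((∑ f ∈ Fintype.piFinset (fun _ : ι => Finset.range e) with ∑ i, m i * f i = s,
      ∏ i, ((q ^ m i) ^ (e - f i) - (q ^ m i) ^ (e - f i - 1)) : ℕ) : ℚ) =
    (Nat.card {f : ι → ℕ // ∑ i, m i * f i = s} : ℚ) * (q : ℚ) ^ ((∑ i, m i) * e - s) *
      ∏ i, (1 - 1 / (q : ℚ) ^ m i)

/-- degrees add up: `∑ deg = n`, degrees are positive, and the index of `d = 1` -/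
def S_DEG : Prop := ∀ (n q : ℕ) (_ : 0 < n) (_ : 2 ≤ q) (_ : Nat.Coprime n q),
  (∀ i : Idx n q, 0 < deg i) ∧ (∑ i : Idx n q, deg i = n) ∧ (∃ i : Idx n q, deg i = 1) ∧
  (∏ i : Idx n q, (1 - 1 / (q : ℚ) ^ deg i)) =
    (1 - 1 / (q : ℚ)) * ∏ d ∈ n.divisors.erase 1,
      (1 - 1 / (q : ℚ) ^ (orderOf (q : ZMod d))) ^ (Nat.totient d / orderOf (q : ZMod d))

/-- valuation of the norm and number of elements with a given valuation of the norm -/
def S_VAL : Prop := ∀ (R : Type u) [CommRing R] [Finite R] [IsLocalRing R] (γ : R)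
  (_ : maximalIdeal R = Ideal.span {γ}) (e : ℕ) (_ : γ ^ e = 0) (_ : ∀ k < e, γ ^ k ≠ 0)
  (n : ℕ) (_ : 0 < n) (_ : Nat.Coprime n (Nat.card (ResidueField R))) (s : ℕ) (_ : s < e),
  (Nat.card {f : AA R n // ∃ b : Rˣ, Algebra.norm R f = γ ^ s * b} : ℚ) =
    (P n (Nat.card (ResidueField R)) s : ℚ) * (Nat.card (ResidueField R) : ℚ) ^ (n * e - s) *
      ∏ i : Idx n (Nat.card (ResidueField R)), (1 - 1 / (Nat.card (ResidueField R) : ℚ) ^ deg i)

/-- every unit of `R` is the norm of a unit of `R[x]/(x^n-1)`. -/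
def S_UNIT : Prop := ∀ (R : Type u) [CommRing R] [Finite R] [IsLocalRing R]
  (n : ℕ) (_ : 0 < n) (_ : Nat.Coprime n (Nat.card (ResidueField R))) (b : Rˣ),
  ∃ w : (AA R n)ˣ, Algebra.norm R (w : AA R n) = b

/-- the common factor in the formula -/
noncomputable def factor (n q : ℕ) : ℚ := ∏ d ∈ n.divisors.erase 1,
      (1 - 1 / (q : ℚ) ^ (orderOf (q : ZMod d))) ^ (Nat.totient d / orderOf (q : ZMod d))

/-- the main theorem -/
def S_MAIN : Prop := ∀ (R : Type u) [CommRing R] [Finite R] [Nontrivial R]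
  (_ : ∀ I J : Ideal R, I ≤ J ∨ J ≤ I) (γ : R) (_ : (Ideal.span {γ}).IsMaximal)
  (e : ℕ) (_ : γ ^ e = 0) (_ : ∀ k < e, γ ^ k ≠ 0) (q : ℕ)
  (_ : Nat.card (R ⧸ Ideal.span {γ}) = q) (n : ℕ) (_ : 0 < n) (_ : Nat.Coprime n q),
  (∀ s < e, ∀ b : R, IsUnit b →
    (circCount R n (γ ^ s * b) : ℚ) = (q : ℚ) ^ (e * (n - 1)) * factor n q * P n q s) ∧
  (circCount R n (0 : R) : ℚ) = (q : ℚ) ^ (n * e) -
    ∑ s ∈ Finset.range e, ((q : ℚ) ^ (e - s) - (q : ℚ) ^ (e - s - 1)) *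
      ((q : ℚ) ^ (e * (n - 1)) * factor n q * P n q s)

end Pool.Agent.R823.CC
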