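import Mathlib
import Pool.Agent.R823.CC.Stm

/-!
# CC-CHAIN2: valuations and counts in a finite chain ring
-/

namespace Pool.Agent.R823.CC

open Polynomial IsLocalRing

universe u

namespace Ch2

variable {B : Type u} [CommRing B]

/-- `γ^s B` as a set -/
def J (γ : B) (s : ℕ) : Set B := {x | ∃ c, x = γ ^ s * c}

theorem J_succ_subset (γ : B) (s : ℕ) : J γ (s + 1) ⊆ J γ s := by
  rintro x ⟨c, rfl⟩
  exact ⟨γ * c, by ring⟩

theorem J_zero (γ : B) : J γ 0 = Set.univ := by
  ext x; simp [J]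

variable [Finite B] [IsLocalRing B]

theorem J_step {γ : B} (hγ : maximalIdeal B = Ideal.span {γ}) (s : ℕ) :
    (J γ s).ncard ≤ Nat.card (ResidueField B) * (J γ (s + 1)).ncard := by
  have hsurj : Function.Surjective (residue B) := residue_surjective
  choose out hout using hsurj
  have hmem : ∀ p : ResidueField B × J γ (s + 1), γ ^ s * out p.1 + p.2.1 ∈ J γ s := by
    rintro ⟨t, y, c, rfl⟩
    exact ⟨out t + γ * c, by ring⟩
  have hs : Function.Surjective
      (fun p : ResidueField B × J γ (s + 1) =>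
        (⟨γ ^ s * out p.1 + p.2.1, hmem p⟩ : J γ s)) := by
    rintro ⟨x, c, rfl⟩
    have h1 : c - out (residue B c) ∈ maximalIdeal B := by
      rw [← residue_eq_zero_iff, map_sub, hout, sub_self]
    rw [hγ, Ideal.mem_span_singleton] at h1
    obtain ⟨d, hd⟩ := h1
    refine ⟨(residue B c, ⟨γ ^ (s + 1) * d, d, rfl⟩), ?_⟩
    apply Subtype.ext
    show γ ^ s * out (residue B c) + γ ^ (s + 1) * d = γ ^ s * c
    have : c = out (residue B c) + γ * d := by rw [← hd]; ring
    calc γ ^ s * out (residue B c) + γ ^ (s + 1) * d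
        = γ ^ s * (out (residue B c) + γ * d) := by ring
      _ = γ ^ s * c := by rw [← this]
  have hfin : Finite (ResidueField B) := Finite.of_surjective _ (residue_surjective (R := B))
  have := Nat.card_le_card_of_surjective _ hs
  rw [Nat.card_prod, Nat.card_coe_set_eq, Nat.card_coe_set_eq] at this
  exact this

theorem J_e {γ : B} {e : ℕ} (he : γ ^ e = 0) : (J γ e).ncard = 1 := by
  have : J γ e = {0} := by
    ext x
    simp [J, he]
  rw [this, Set.ncard_singleton]

theorem Q_two : 2 ≤ Nat.card (ResidueField B) := by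
  have : Finite (ResidueField B) := Finite.of_surjective _ (residue_surjective (R := B))
  have := Finite.one_lt_card (α := ResidueField B)
  omega

theorem J_le {γ : B} (hγ : maximalIdeal B = Ideal.span {γ}) {e : ℕ} (he : γ ^ e = 0) :
    ∀ k ≤ e, (J γ (e - k)).ncard ≤ (Nat.card (ResidueField B)) ^ k := by
  intro k
  induction k with
  | zero => intro _; simp [J_e he]
  | succ k ih =>
    intro hk
    have h1 := J_step hγ (e - (k + 1))
    have h2 : e - (k + 1) + 1 = e - k := by omega
    rw [h2] at h1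
    calc _ ≤ _ := h1
      _ ≤ Nat.card (ResidueField B) * (Nat.card (ResidueField B)) ^ k :=
        Nat.mul_le_mul_left _ (ih (by omega))
      _ = _ := by rw [pow_succ]; ring

theorem card_le {γ : B} (hγ : maximalIdeal B = Ideal.span {γ}) :
    ∀ s, Nat.card B ≤ (Nat.card (ResidueField B)) ^ s * (J γ s).ncard := by
  intro s
  induction s with
  | zero => rw [J_zero, Set.ncard_univ]; simp
  | succ s ih =>
    calc _ ≤ _ := ih
      _ ≤ (Nat.card (ResidueField B)) ^ s *
          (Nat.card (ResidueField B) * (J γ (s + 1)).ncard) :=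
        Nat.mul_le_mul_left _ (J_step hγ s)
      _ = _ := by rw [pow_succ]; ring

theorem J_card {γ : B} (hγ : maximalIdeal B = Ideal.span {γ}) {e : ℕ} (he : γ ^ e = 0)
    (hB : Nat.card B = (Nat.card (ResidueField B)) ^ e) {s : ℕ} (hs : s ≤ e) :
    (J γ s).ncard = (Nat.card (ResidueField B)) ^ (e - s) := by
  have hQ := Q_two (B := B)
  apply le_antisymm
  · have := J_le hγ he (e - s) (by omega)
    have h2 : e - (e - s) = s := by omega
    rwa [h2] at this
  · have h1 := card_le hγ s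
    rw [hB] at h1
    have h2 : (Nat.card (ResidueField B)) ^ e =
        (Nat.card (ResidueField B)) ^ s * (Nat.card (ResidueField B)) ^ (e - s) := by
      rw [← pow_add]; congr 1; omega
    rw [h2] at h1
    exact Nat.le_of_mul_le_mul_left h1 (by positivity)

theorem pow_ne {γ : B} (hγ : maximalIdeal B = Ideal.span {γ}) {e : ℕ} (he : γ ^ e = 0)
    (hB : Nat.card B = (Nat.card (ResidueField B)) ^ e) {s : ℕ} (hs : s < e) : γ ^ s ≠ 0 := by
  intro h0
  have h1 := J_card hγ he hB hs.le
  rw [J_e h0] at h1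
  have hQ := Q_two (B := B)
  have : 1 < (Nat.card (ResidueField B)) ^ (e - s) := Nat.one_lt_pow (by omega) (by omega)
  omega

theorem unit_sub {γ : B} (hγ : maximalIdeal B = Ideal.span {γ}) (u : Bˣ) (c : B) :
    IsUnit ((u : B) - γ * c) := by
  by_contra h
  have h1 : (u : B) - γ * c ∈ maximalIdeal B := (mem_maximalIdeal _).mpr h
  have h2 : γ * c ∈ maximalIdeal B := by
    rw [hγ]; exact Ideal.mul_mem_right _ _ (Ideal.mem_span_singleton_self γ)
  have h3 : (u : B) ∈ maximalIdeal B := by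
    have := Ideal.add_mem _ h1 h2
    simpa using this
  exact (mem_maximalIdeal _).mp h3 u.isUnit

theorem zero_of {γ : B} (hγ : maximalIdeal B = Ideal.span {γ}) {s : ℕ} {u : Bˣ} {c : B}
    (h : γ ^ s * u = γ ^ (s + 1) * c) : γ ^ s = 0 := by
  obtain ⟨w, hw⟩ := unit_sub hγ u c
  have : γ ^ s * (w : B) = 0 := by
    rw [hw]
    have : γ ^ s * ((u : B) - γ * c) = γ ^ s * u - γ ^ (s + 1) * c := by ring
    rw [this, h, sub_self]
  exact (Units.mul_left_eq_zero w).mp this

theorem set_eq {γ : B} (hγ : maximalIdeal B = Ideal.span {γ}) {e : ℕ} (he : γ ^ e = 0)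
    (hB : Nat.card B = (Nat.card (ResidueField B)) ^ e) {s : ℕ} (hs : s < e) :
    {x : B | ∃ u : Bˣ, x = γ ^ s * u} = J γ s \ J γ (s + 1) := by
  ext x
  constructor
  · rintro ⟨u, rfl⟩
    refine ⟨⟨u, rfl⟩, ?_⟩
    rintro ⟨c, hc⟩
    exact pow_ne hγ he hB hs (zero_of hγ hc)
  · rintro ⟨⟨c, rfl⟩, h2⟩
    by_cases hc : IsUnit c
    · obtain ⟨u, rfl⟩ := hc
      exact ⟨u, rfl⟩
    · exfalso
      apply h2
      have : c ∈ maximalIdeal B := (mem_maximalIdeal _).mpr hc
      rw [hγ, Ideal.mem_span_singleton] at this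
      obtain ⟨d, rfl⟩ := this
      exact ⟨d, by ring⟩

theorem exists_val {γ : B} (hγ : maximalIdeal B = Ideal.span {γ}) {e : ℕ} (he : γ ^ e = 0)
    (x : B) : ∃ s ≤ e, ∃ u : Bˣ, x = γ ^ s * u := by
  -- descending search
  have key : ∀ k ≤ e, x ∈ J γ (e - k) → ∃ s ≤ e, ∃ u : Bˣ, x = γ ^ s * u := by
    intro k
    induction k with
    | zero =>
      intro _ hx
      obtain ⟨c, hc⟩ := hx
      refine ⟨e, le_rfl, 1, ?_⟩
      rw [hc, Nat.sub_zero, he]; simp
    | succ k ih =>
      intro hk hx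
      obtain ⟨c, hc⟩ := hx
      by_cases hcu : IsUnit c
      · obtain ⟨u, rfl⟩ := hcu
        exact ⟨e - (k + 1), by omega, u, hc⟩
      · have : c ∈ maximalIdeal B := (mem_maximalIdeal _).mpr hcu
        rw [hγ, Ideal.mem_span_singleton] at this
        obtain ⟨d, rfl⟩ := this
        apply ih (by omega)
        refine ⟨d, ?_⟩
        rw [hc, ← mul_assoc, ← pow_succ]
        congr 2
        omega
  apply key e le_rfl
  rw [Nat.sub_self]
  exact ⟨x, by simp⟩

theorem uniq_lt {γ : B} (hγ : maximalIdeal B = Ideal.span {γ}) {e : ℕ} (he : γ ^ e = 0)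
    (hB : Nat.card B = (Nat.card (ResidueField B)) ^ e) {s t : ℕ} (hst : s < t) (ht : t ≤ e)
    {u v : Bˣ} (h : γ ^ s * (u : B) = γ ^ t * v) : False := by
  apply pow_ne hγ he hB (lt_of_lt_of_le hst ht)
  apply zero_of hγ (u := u) (c := γ ^ (t - (s + 1)) * v)
  rw [h, ← mul_assoc, ← pow_add]
  congr 2
  omega

end Ch2

open Ch2

theorem sCHAIN2 : S_CHAIN2.{u} := by
  intro B _ _ _ γ e hγ he hB
  refine ⟨exists_val hγ he, ?_, ?_⟩
  · intro s hs t ht u v h
    rcases lt_trichotomy s t with hlt | heq | hgt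
    · exact (uniq_lt hγ he hB hlt ht h).elim
    · exact heq
    · exact (uniq_lt hγ he hB hgt hs h.symm).elim
  · intro s hs
    have h1 : Nat.card {x : B // ∃ u : Bˣ, x = γ ^ s * u} =
        ({x : B | ∃ u : Bˣ, x = γ ^ s * u}).ncard := rfl
    rw [h1, set_eq hγ he hB hs, Set.ncard_sdiff (J_succ_subset γ s), J_card hγ he hB hs.le,
      J_card hγ he hB hs]
    rw [Nat.sub_sub]

end Pool.Agent.R823.CC
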