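import Pool.Agent.R823.CC.Stm

/-!
CC-CIRC: determinants of circulant matrices are the norms from `R[x]/(x^n-1)`.
-/

set_option autoImplicit false

namespace Pool.Agent.R823.CC

open Polynomial

universe u

theorem circ_monic (R : Type u) [CommRing R] {n : ℕ} (hn : n ≠ 0) : (X ^ n - 1 : R[X]).Monic := by
  simpa using monic_X_pow_sub_C (1 : R) hn

theorem circ_natDegree (R : Type u) [CommRing R] [Nontrivial R] (n : ℕ) :
    (X ^ n - 1 : R[X]).natDegree = n := by
  have h := natDegree_X_pow_sub_C (n := n) (r := (1 : R))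
  rwa [C_1] at h

theorem circ_root_pow (R : Type u) [CommRing R] (n : ℕ) :
    (AdjoinRoot.root (X ^ n - 1 : R[X])) ^ n = 1 := by
  have h := AdjoinRoot.eval₂_root (X ^ n - 1 : R[X])
  simpa [sub_eq_zero] using h

theorem circ_pow_mod (R : Type u) [CommRing R] (n k : ℕ) :
    (AdjoinRoot.root (X ^ n - 1 : R[X])) ^ (k % n) = (AdjoinRoot.root (X ^ n - 1 : R[X])) ^ k := by
  conv_rhs => rw [← Nat.div_add_mod k n]
  rw [pow_add, pow_mul, circ_root_pow, one_pow, one_mul]

/-- The basis `1, x, …, x^m` of `R[x]/(x^(m+1)-1)`. -/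
noncomputable def circBasis (R : Type u) [CommRing R] [Nontrivial R] (m : ℕ) :
    Module.Basis (Fin (m + 1)) R (AA R (m + 1)) :=
  (AdjoinRoot.powerBasis' (circ_monic R (Nat.succ_ne_zero m))).basis.reindex
    (finCongr (by rw [AdjoinRoot.powerBasis'_dim, circ_natDegree]))

theorem circBasis_apply (R : Type u) [CommRing R] [Nontrivial R] (m : ℕ) (j : Fin (m + 1)) :
    circBasis R m j = (AdjoinRoot.root (X ^ (m + 1) - 1 : R[X])) ^ (j : ℕ) := by
  unfold circBasis
  rw [Module.Basis.reindex_apply, PowerBasis.basis_eq_pow, AdjoinRoot.powerBasis'_gen]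
  rfl

theorem circBasis_mul (R : Type u) [CommRing R] [Nontrivial R] (m : ℕ) (k j : Fin (m + 1)) :
    circBasis R m k * circBasis R m j = circBasis R m (k + j) := by
  rw [circBasis_apply, circBasis_apply, circBasis_apply, ← pow_add, Fin.val_add, circ_pow_mod]

theorem circ_mul (R : Type u) [CommRing R] [Nontrivial R] (m : ℕ) (v : Fin (m + 1) → R)
    (j : Fin (m + 1)) :
    (circBasis R m).equivFun.symm v * circBasis R m j =
      (circBasis R m).equivFun.symm (fun i => v (i - j)) := by
  rw [Module.Basis.equivFun_symm_apply, Module.Basis.equivFun_symm_apply, Finset.sum_mul,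
    ← Equiv.sum_comp (Equiv.addRight j) (fun i => v (i - j) • circBasis R m i)]
  apply Finset.sum_congr rfl
  intro k _
  rw [smul_mul_assoc, circBasis_mul]
  simp

theorem circ_matrix (R : Type u) [CommRing R] [Nontrivial R] (m : ℕ) (v : Fin (m + 1) → R) :
    Algebra.leftMulMatrix (circBasis R m) ((circBasis R m).equivFun.symm v) =
      (cir v).transpose := by
  ext i j
  rw [Algebra.leftMulMatrix_eq_repr_mul, circ_mul, ← Module.Basis.equivFun_apply,
    LinearEquiv.apply_symm_apply]
  rfl

theorem circ_norm (R : Type u) [CommRing R] [Nontrivial R] (m : ℕ) (v : Fin (m + 1) → R) :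
    Algebra.norm R ((circBasis R m).equivFun.symm v) = (cir v).det := by
  rw [Algebra.norm_eq_matrix_det (circBasis R m), circ_matrix, Matrix.det_transpose]

theorem cir_injective {R : Type u} {m : ℕ} {v w : Fin (m + 1) → R} (h : cir v = cir w) :
    v = w := by
  funext j
  have h1 := congrFun (congrFun h 0) j
  simpa [cir] using h1

theorem sCIRC : S_CIRC.{u} := by
  intro R _ _ _ n hn a
  obtain ⟨m, rfl⟩ : ∃ m, n = m + 1 := ⟨n - 1, by omega⟩
  unfold circCount
  have h1 : Nat.card {v : Fin (m + 1) → R // (cir v).det = a} =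
      Nat.card {f : AA R (m + 1) // Algebra.norm R f = a} :=
    Nat.card_congr ((circBasis R m).equivFun.symm.toEquiv.subtypeEquiv
      (fun v => by
        show (cir v).det = a ↔ Algebra.norm R ((circBasis R m).equivFun.symm v) = a
        rw [circ_norm]))
  rw [← h1]
  symm
  apply Nat.card_congr
  refine Equiv.ofBijective (fun v => ⟨cir v.1, ⟨v.1, rfl⟩, v.2⟩) ⟨?_, ?_⟩
  · rintro ⟨v, hv⟩ ⟨w, hw⟩ h
    have h2 : cir v = cir w := congrArg Subtype.val h
    exact Subtype.ext (cir_injective h2)
  · rintro ⟨M, ⟨v, rfl⟩, hM⟩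
    exact ⟨⟨v, hM⟩, rfl⟩

end Pool.Agent.R823.CC
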