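import Mathlib
import Pool.Agent.R823.CC.Stm

/-! CC-DECOMP: decomposition of a finite ring `A` with `A/γA` reduced (subtask 5452, helper55). -/

namespace Pool.Agent.R823.CC

open IsLocalRing Function

universe u

/-- CC-DECOMP -/
theorem sDECOMP : S_DECOMP.{u} := by
  intro A _ _ γ e he hγ hred
  classical
  -- the nilradical is generated by `γ`
  have hnil : nilradical A = Ideal.span {γ} := by
    apply le_antisymm
    · intro x hx
      rw [mem_nilradical] at hx
      have h1 : IsNilpotent (Ideal.Quotient.mk (Ideal.span {γ}) x) := hx.map _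
      exact Ideal.Quotient.eq_zero_iff_mem.1 h1.eq_zero
    · rw [Ideal.span_singleton_le_iff_mem, mem_nilradical]
      exact ⟨e, hγ⟩
  have hcop : Pairwise (IsCoprime on fun i : MaximalSpectrum A => i.asIdeal ^ e) :=
    fun i j hij => (i.isCoprime_of_ne hij).pow
  have hinf : (⨅ i : MaximalSpectrum A, i.asIdeal ^ e) = ⊥ := by
    have h := IsArtinianRing.nilradical_pow_eq_iInf A e
    rw [← h, hnil, Ideal.span_singleton_pow, hγ]
    simp
  have hinf1 : (⨅ i : MaximalSpectrum A, i.asIdeal) = Ideal.span {γ} := by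
    rw [← hnil, IsArtinianRing.nilradical_eq_iInf]
  refine ⟨⟨?_, ?_⟩, ?_⟩
  · intro a b hab
    have h1 : a - b ∈ (⨅ i : MaximalSpectrum A, i.asIdeal ^ e) := by
      rw [Ideal.mem_iInf]
      intro i
      exact Ideal.Quotient.eq.1 (congrFun hab i)
    rw [hinf, Ideal.mem_bot, sub_eq_zero] at h1
    exact h1
  · intro x
    obtain ⟨r, hr⟩ := Ideal.pi_quotient_surjective hcop x
    exact ⟨r, funext hr⟩
  · intro i
    have hmax := i.isMaximal
    have hle : i.asIdeal ^ e ≤ i.asIdeal := Ideal.pow_le_self he.ne'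
    have hne : i.asIdeal ^ e ≠ ⊤ := fun h => hmax.ne_top (top_le_iff.1 (h ▸ hle))
    -- uniqueness of the maximal ideal
    have hkey : ∀ P : Ideal (A ⧸ i.asIdeal ^ e), P.IsMaximal →
        P = i.asIdeal.map (Ideal.Quotient.mk (i.asIdeal ^ e)) := by
      intro P hP
      have hcm : (P.comap (Ideal.Quotient.mk (i.asIdeal ^ e))).IsMaximal :=
        Ideal.comap_isMaximal_of_surjective _ Ideal.Quotient.mk_surjective
      have h1 : i.asIdeal ^ e ≤ P.comap (Ideal.Quotient.mk (i.asIdeal ^ e)) := by
        intro x hx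
        rw [Ideal.mem_comap, Ideal.Quotient.eq_zero_iff_mem.2 hx]
        exact P.zero_mem
      have h2 : i.asIdeal ≤ P.comap (Ideal.Quotient.mk (i.asIdeal ^ e)) :=
        hcm.isPrime.le_of_pow_le h1
      have h3 : i.asIdeal = P.comap (Ideal.Quotient.mk (i.asIdeal ^ e)) :=
        hmax.eq_of_le hcm.ne_top h2
      have h4 := Ideal.map_comap_of_surjective (Ideal.Quotient.mk (i.asIdeal ^ e))
        Ideal.Quotient.mk_surjective P
      rw [← h3] at h4
      exact h4.symm
    have hmapmax : (i.asIdeal.map (Ideal.Quotient.mk (i.asIdeal ^ e))).IsMaximal := by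
      have : Nontrivial (A ⧸ i.asIdeal ^ e) := Ideal.Quotient.nontrivial_iff.2 hne
      obtain ⟨P, hP⟩ := Ideal.exists_maximal (A ⧸ i.asIdeal ^ e)
      rw [← hkey P hP]
      exact hP
    have hloc : IsLocalRing (A ⧸ i.asIdeal ^ e) :=
      IsLocalRing.of_unique_max_ideal ⟨_, hmapmax, fun P hP => hkey P hP⟩
    refine ⟨hloc, ?_, ?_⟩
    · have hm : maximalIdeal (A ⧸ i.asIdeal ^ e) =
          i.asIdeal.map (Ideal.Quotient.mk (i.asIdeal ^ e)) := hkey _ (maximalIdeal.isMaximal _)
      rw [hm]
      apply le_antisymm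
      · rw [Ideal.map_le_iff_le_comap]
        intro y hy
        rw [Ideal.mem_comap]
        -- an element `x` which is `1` at `i` and `0` elsewhere
        obtain ⟨x, hx⟩ := Ideal.pi_quotient_surjective hcop
          (Pi.single i (1 : A ⧸ i.asIdeal ^ e))
        have hxy : x * y ∈ Ideal.span {γ} := by
          rw [← hinf1, Ideal.mem_iInf]
          intro j
          by_cases hj : j = i
          · subst hj
            exact Ideal.mul_mem_left _ _ hy
          · have h1 := hx j
            rw [Pi.single_eq_of_ne hj] at h1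
            have h2 : x ∈ j.asIdeal ^ e := Ideal.Quotient.eq_zero_iff_mem.1 h1
            exact Ideal.mul_mem_right _ _ (Ideal.pow_le_self he.ne' h2)
        have h3 : Ideal.Quotient.mk (i.asIdeal ^ e) x = 1 := by
          have := hx i
          rw [Pi.single_eq_same] at this
          exact this
        have h4 : Ideal.Quotient.mk (i.asIdeal ^ e) y =
            Ideal.Quotient.mk (i.asIdeal ^ e) (x * y) := by
          rw [map_mul, h3, one_mul]
        rw [h4]
        obtain ⟨c, hc⟩ := Ideal.mem_span_singleton.1 hxy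
        rw [hc, map_mul]
        exact Ideal.mem_span_singleton.2 (Dvd.intro _ rfl)
      · rw [Ideal.span_singleton_le_iff_mem]
        apply Ideal.mem_map_of_mem
        have : γ ∈ (⨅ i : MaximalSpectrum A, i.asIdeal) := by
          rw [hinf1]
          exact Ideal.mem_span_singleton_self γ
        exact (Ideal.mem_iInf.1 this) i
    · have hm : maximalIdeal (A ⧸ i.asIdeal ^ e) =
          i.asIdeal.map (Ideal.Quotient.mk (i.asIdeal ^ e)) := hkey _ (maximalIdeal.isMaximal _)
      have e1 : ResidueField (A ⧸ i.asIdeal ^ e) ≃+*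
          (A ⧸ i.asIdeal ^ e) ⧸ i.asIdeal.map (Ideal.Quotient.mk (i.asIdeal ^ e)) :=
        Ideal.quotEquivOfEq hm
      exact Nat.card_congr (e1.trans (DoubleQuot.quotQuotEquivQuotOfLE hle)).toEquiv

end Pool.Agent.R823.CC
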