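import Pool.Agent.R823.CC.Stm

namespace Pool.Agent.R823.CC

namespace DEGaux

theorem ord_facts (n q d : ℕ) (hn : 0 < n) (hc : Nat.Coprime n q) (hd : d ∣ n) :
    0 < orderOf (q : ZMod d) ∧ orderOf (q : ZMod d) ∣ Nat.totient d := by
  have hd0 : 0 < d := Nat.pos_of_dvd_of_pos hd hn
  haveI : NeZero d := ⟨hd0.ne'⟩
  have hq : Nat.Coprime q d := (Nat.Coprime.coprime_dvd_left hd hc).symm
  have e1 : orderOf (q : ZMod d) = orderOf (ZMod.unitOfCoprime q hq) := by
    rw [← orderOf_units, ZMod.coe_unitOfCoprime]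
  rw [e1]
  refine ⟨orderOf_pos _, ?_⟩
  have := orderOf_dvd_card (x := ZMod.unitOfCoprime q hq)
  rwa [ZMod.card_units_eq_totient] at this

theorem ord_one (q : ℕ) : orderOf (q : ZMod 1) = 1 := by
  rw [Subsingleton.elim (q : ZMod 1) 1, orderOf_one]

end DEGaux

theorem sDEG : S_DEG := by
  intro n q hn hq hc
  have hf : ∀ d : {d : ℕ // d ∈ n.divisors}, 0 < orderOf (q : ZMod d.1) ∧
      orderOf (q : ZMod d.1) ∣ Nat.totient d.1 := fun d =>
    DEGaux.ord_facts n q d.1 hn hc (Nat.dvd_of_mem_divisors d.2)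
  refine ⟨fun i => (hf i.1).1, ?_, ?_, ?_⟩
  · have h0 : ∑ i : Idx n q, deg i = ∑ d : {d : ℕ // d ∈ n.divisors},
        ∑ _j : Fin (Nat.totient d.1 / orderOf (q : ZMod d.1)), orderOf (q : ZMod d.1) :=
      Fintype.sum_sigma _
    rw [h0]
    simp only [Finset.sum_const, Finset.card_univ, Fintype.card_fin, smul_eq_mul]
    have h1 : ∀ d : {d : ℕ // d ∈ n.divisors}, Nat.totient d.1 / orderOf (q : ZMod d.1) *
        orderOf (q : ZMod d.1) = Nat.totient d.1 := fun d => Nat.div_mul_cancel (hf d).2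
    rw [Finset.sum_congr rfl (fun d _ => h1 d)]
    rw [Finset.sum_coe_sort n.divisors (fun d => Nat.totient d)]
    exact Nat.sum_totient n
  · have h1 : 1 ∈ n.divisors := Nat.one_mem_divisors.2 hn.ne'
    refine ⟨⟨⟨1, h1⟩, ⟨0, ?_⟩⟩, ?_⟩
    · rw [DEGaux.ord_one]; simp
    · exact DEGaux.ord_one q
  · have h0 : ∏ i : Idx n q, (1 - 1 / (q : ℚ) ^ deg i) = ∏ d : {d : ℕ // d ∈ n.divisors},
        ∏ _j : Fin (Nat.totient d.1 / orderOf (q : ZMod d.1)),
          (1 - 1 / (q : ℚ) ^ orderOf (q : ZMod d.1)) := Fintype.prod_sigma _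
    rw [h0]
    simp only [Finset.prod_const, Finset.card_univ, Fintype.card_fin]
    rw [Finset.prod_coe_sort n.divisors (fun d => (1 - 1 / (q : ℚ) ^ (orderOf (q : ZMod d))) ^
      (Nat.totient d / orderOf (q : ZMod d)))]
    rw [← Finset.mul_prod_erase n.divisors (fun d => (1 - 1 / (q : ℚ) ^ (orderOf (q : ZMod d))) ^
      (Nat.totient d / orderOf (q : ZMod d))) (Nat.one_mem_divisors.2 hn.ne')]
    rw [DEGaux.ord_one]
    simp

end Pool.Agent.R823.CC
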