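import Pool.Agent.R823.CC.Stm

/-! Piece FACT of PROJECT CC (MP_975ab8_al): from the residue field to the local ring. -/

namespace Pool.Agent.R823.CC

open Polynomial IsLocalRing

universe u

namespace FACTx

lemma equivK (R : Type u) [CommRing R] [IsLocalRing R] (γ : R)
    (hγ : maximalIdeal R = Ideal.span {γ}) (n : ℕ) :
    Nonempty ((AA R n ⧸ Ideal.span {algebraMap R (AA R n) γ}) ≃+* AA (ResidueField R) n) := by
  have h1 : Ideal.span {algebraMap R (AA R n) γ} =
      (maximalIdeal R).map (AdjoinRoot.of (X ^ n - 1 : R[X])) := by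
    rw [hγ, Ideal.map_span, Set.image_singleton, AdjoinRoot.algebraMap_eq]
  have h2 : Ideal.span ({(X ^ n - 1 : R[X]).map (Ideal.Quotient.mk (maximalIdeal R))} :
      Set (R ⧸ maximalIdeal R)[X]) = Ideal.span {(X ^ n - 1 : (R ⧸ maximalIdeal R)[X])} := by
    rw [Polynomial.map_sub, Polynomial.map_pow, Polynomial.map_X, Polynomial.map_one]
  exact ⟨(Ideal.quotEquivOfEq h1).trans
    ((AdjoinRoot.quotAdjoinRootEquivQuotPolynomialQuot (maximalIdeal R) (X ^ n - 1)).trans
      (Ideal.quotEquivOfEq h2))⟩

/-- a surjection whose kernel consists of nilpotent elements identifies the maximal spectra. -/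
lemma specEquiv {A B : Type u} [CommRing A] [CommRing B] (φ : A →+* B)
    (hφ : Function.Surjective φ) (hk : ∀ m : Ideal A, m.IsMaximal → RingHom.ker φ ≤ m) :
    ∃ τ : MaximalSpectrum B ≃ MaximalSpectrum A,
      ∀ m, Nat.card (A ⧸ (τ m).asIdeal) = Nat.card (B ⧸ m.asIdeal) := by
  let τ0 : MaximalSpectrum B → MaximalSpectrum A := fun m =>
    ⟨m.asIdeal.comap φ, by
      have := m.isMaximal
      exact Ideal.comap_isMaximal_of_surjective φ hφ⟩
  have hbij : Function.Bijective τ0 := by
    constructor
    · intro m m' h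
      have h' := congrArg MaximalSpectrum.asIdeal h
      exact MaximalSpectrum.ext (Ideal.comap_injective_of_surjective φ hφ h')
    · intro m
      have hm := m.isMaximal
      have hcm : (m.asIdeal.map φ).comap φ = m.asIdeal := by
        rw [Ideal.comap_map_of_surjective φ hφ, ← RingHom.ker_eq_comap_bot]
        exact sup_eq_left.2 (hk _ hm)
      have hmax : (m.asIdeal.map φ).IsMaximal := by
        rcases Ideal.map_eq_top_or_isMaximal_of_surjective φ hφ hm with h | h
        · exfalso
          rw [h, Ideal.comap_top] at hcm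
          exact hm.ne_top hcm.symm
        · exact h
      exact ⟨⟨m.asIdeal.map φ, hmax⟩, MaximalSpectrum.ext hcm⟩
  refine ⟨Equiv.ofBijective τ0 hbij, fun m => ?_⟩
  let ψ : A →+* (B ⧸ m.asIdeal) := (Ideal.Quotient.mk m.asIdeal).comp φ
  have hψ : Function.Surjective ψ := Ideal.Quotient.mk_surjective.comp hφ
  have hker : m.asIdeal.comap φ = RingHom.ker ψ := by
    ext x
    rw [Ideal.mem_comap, RingHom.mem_ker, RingHom.comp_apply, Ideal.Quotient.eq_zero_iff_mem]
  exact Nat.card_congr ((Ideal.quotEquivOfEq hker).trans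
    (RingHom.quotientKerEquivOfSurjective hψ)).toEquiv

end FACTx

open FACTx in
theorem sFACT (h : S_FACTk.{u}) : S_FACT.{u} := by
  intro R _ _ _ γ hγ hnil n hn hcop
  have : Finite (ResidueField R) := Finite.of_surjective _ (residue_surjective (R := R))
  obtain ⟨hred, σk, hσk⟩ := h (ResidueField R) n hn hcop
  obtain ⟨e⟩ := equivK R γ hγ n
  refine ⟨isReduced_of_injective e.toRingHom e.injective, ?_⟩
  let φ : AA R n →+* AA (ResidueField R) n :=
    e.toRingHom.comp (Ideal.Quotient.mk (Ideal.span {algebraMap R (AA R n) γ}))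
  have hφ : Function.Surjective φ := e.surjective.comp Ideal.Quotient.mk_surjective
  have hk : ∀ m : Ideal (AA R n), m.IsMaximal → RingHom.ker φ ≤ m := by
    intro m hm x hx
    have hx' : x ∈ Ideal.span {algebraMap R (AA R n) γ} := by
      rw [RingHom.mem_ker, RingHom.comp_apply] at hx
      rw [← Ideal.Quotient.eq_zero_iff_mem]
      exact e.injective (hx.trans (map_zero e).symm)
    have hγm : algebraMap R (AA R n) γ ∈ m := by
      obtain ⟨k, hk⟩ := hnil
      refine hm.isPrime.mem_of_pow_mem k ?_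
      rw [← map_pow, hk, map_zero]
      exact m.zero_mem
    exact (Ideal.span_singleton_le_iff_mem m).2 hγm hx'
  obtain ⟨τ, hτ⟩ := specEquiv φ hφ hk
  refine ⟨τ.symm.trans σk, fun m => ?_⟩
  have h1 := hτ (τ.symm m)
  rw [Equiv.apply_symm_apply] at h1
  rw [h1, hσk]
  rfl

end Pool.Agent.R823.CC
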