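import Mathlib
import Pool.Agent.R823.CC.Stm

/-! # CC-FACTk: maximal ideals of `k[x]/(x^n-1)` -/

namespace Pool.Agent.R823.CC

open Polynomial UniqueFactorizationMonoid

universe u

namespace FACTk

section

variable {k : Type u} [Field k] [Fintype k] [DecidableEq k] {n : ℕ}

theorem cast_ne (hc : Nat.Coprime n (Fintype.card k)) : (n : k) ≠ 0 := by
  obtain ⟨p, hp, m, hpp, hcard⟩ := FiniteField.card' k
  intro h
  have h1 : p ∣ n := (CharP.cast_eq_zero_iff k p n).1 h
  have h2 : p ∣ Fintype.card k := by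
    rw [hcard]; exact dvd_pow_self p m.ne_zero
  have h3 := Nat.dvd_gcd h1 h2
  rw [Nat.Coprime.gcd_eq_one hc] at h3
  exact hpp.one_lt.ne' (Nat.dvd_one.1 h3)

theorem sep (hc : Nat.Coprime n (Fintype.card k)) : (X ^ n - 1 : k[X]).Separable :=
  X_pow_sub_one_separable_iff.2 (cast_ne hc)

/-- irreducible factors -/
noncomputable def S (k : Type u) [Field k] [DecidableEq k] (d : ℕ) : Finset k[X] :=
  (normalizedFactors (cyclotomic d k)).toFinset

theorem mem_S {d : ℕ} {P : k[X]} : P ∈ S k d ↔ P ∈ normalizedFactors (cyclotomic d k) := by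
  unfold S
  rw [Multiset.mem_toFinset]

theorem irr {d : ℕ} {P : k[X]} (h : P ∈ S k d) : Irreducible P :=
  irreducible_of_normalized_factor P (mem_S.1 h)

theorem dvd_cyc {d : ℕ} {P : k[X]} (h : P ∈ S k d) : P ∣ cyclotomic d k :=
  dvd_of_mem_normalizedFactors (mem_S.1 h)

theorem dvd_F (hn : 0 < n) {d : ℕ} (hd : d ∈ n.divisors) {P : k[X]} (h : P ∈ S k d) :
    P ∣ X ^ n - 1 := by
  rw [← prod_cyclotomic_eq_X_pow_sub_one hn k]
  exact (dvd_cyc h).trans (Finset.dvd_prod_of_mem _ hd)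

theorem uniq (hn : 0 < n) (hc : Nat.Coprime n (Fintype.card k)) {d d' : ℕ} (hd : d ∈ n.divisors)
    (hd' : d' ∈ n.divisors) {P P' : k[X]} (hP : P ∈ S k d) (hP' : P' ∈ S k d')
    (h : Ideal.span {P} = Ideal.span {P'}) : d = d' ∧ P = P' := by
  have hass : Associated P P' := Ideal.span_singleton_eq_span_singleton.1 h
  have hPP : P = P' := by
    rw [← normalize_normalized_factor P (mem_S.1 hP), ← normalize_normalized_factor P' (mem_S.1 hP')]
    exact normalize_eq_normalize_iff_associated.2 hass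
  refine ⟨?_, hPP⟩
  by_contra hne
  have h1 : cyclotomic d k * cyclotomic d' k ∣ X ^ n - 1 := by
    rw [← prod_cyclotomic_eq_X_pow_sub_one hn k,
      ← Finset.prod_pair (f := fun i => cyclotomic i k) hne]
    apply Finset.prod_dvd_prod_of_subset
    intro x hx
    rcases Finset.mem_insert.1 hx with rfl | hx
    · exact hd
    · rw [Finset.mem_singleton] at hx
      rw [hx]; exact hd'
  have h2 : P * P ∣ X ^ n - 1 :=
    (mul_dvd_mul (dvd_cyc hP) (hPP ▸ dvd_cyc hP')).trans h1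
  exact (irr hP).not_isUnit ((sep hc).squarefree P h2)

theorem exist (hn : 0 < n) (m : MaximalSpectrum (AA k n)) :
    ∃ x : (Σ d : {d : ℕ // d ∈ n.divisors}, {P : k[X] // P ∈ S k d.1}),
      Ideal.comap (AdjoinRoot.mk (X ^ n - 1 : k[X])) m.asIdeal = Ideal.span {x.2.1} := by
  have hF0 : (X ^ n - 1 : k[X]) ≠ 0 := by
    have := X_pow_sub_C_ne_zero hn (1 : k)
    rwa [C_1] at this
  have hmax := m.isMaximal
  set I := Ideal.comap (AdjoinRoot.mk (X ^ n - 1 : k[X])) m.asIdeal with hI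
  have hIp : I.IsPrime := Ideal.comap_isPrime _ _
  have hFI : (X ^ n - 1 : k[X]) ∈ I := by
    rw [hI, Ideal.mem_comap, AdjoinRoot.mk_self]
    exact Ideal.zero_mem _
  obtain ⟨P0, hP0⟩ : ∃ P0, I = Ideal.span {P0} :=
    (IsPrincipalIdealRing.principal I).principal
  have hP00 : P0 ≠ 0 := by
    rintro rfl
    rw [hP0, Ideal.mem_span_singleton, zero_dvd_iff] at hFI
    exact hF0 hFI
  have hprime : Prime P0 := (Ideal.span_singleton_prime hP00).1 (hP0 ▸ hIp)
  have hdvd : P0 ∣ X ^ n - 1 := by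
    rw [hP0, Ideal.mem_span_singleton] at hFI
    exact hFI
  rw [← prod_cyclotomic_eq_X_pow_sub_one hn k, hprime.dvd_finsetProd_iff] at hdvd
  obtain ⟨d, hd, hdd⟩ := hdvd
  obtain ⟨P, hP, hass⟩ := exists_mem_normalizedFactors_of_dvd (cyclotomic_ne_zero d k)
    hprime.irreducible hdd
  exact ⟨⟨⟨d, hd⟩, ⟨P, mem_S.2 hP⟩⟩, hP0.trans (Ideal.span_singleton_eq_span_singleton.2 hass)⟩

theorem conv (hn : 0 < n) (x : Σ d : {d : ℕ // d ∈ n.divisors}, {P : k[X] // P ∈ S k d.1}) :
    ∃ m : MaximalSpectrum (AA k n),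
      Ideal.comap (AdjoinRoot.mk (X ^ n - 1 : k[X])) m.asIdeal = Ideal.span {x.2.1} := by
  have hirr := irr x.2.2
  have hmax : (Ideal.span {x.2.1}).IsMaximal :=
    PrincipalIdealRing.isMaximal_of_irreducible hirr
  have hsurj : Function.Surjective (AdjoinRoot.mk (X ^ n - 1 : k[X])) :=
    AdjoinRoot.mk_surjective
  have hcm : Ideal.comap (AdjoinRoot.mk (X ^ n - 1 : k[X]))
      (Ideal.map (AdjoinRoot.mk (X ^ n - 1 : k[X])) (Ideal.span {x.2.1})) =
      Ideal.span {x.2.1} := by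
    rw [Ideal.comap_map_of_surjective _ hsurj]
    apply sup_eq_left.2
    intro y hy
    rw [Ideal.mem_comap, Ideal.mem_bot, AdjoinRoot.mk_eq_zero] at hy
    rw [Ideal.mem_span_singleton]
    exact (dvd_F hn x.1.2 x.2.2).trans hy
  refine ⟨⟨Ideal.map (AdjoinRoot.mk (X ^ n - 1 : k[X])) (Ideal.span {x.2.1}), ?_⟩, hcm⟩
  rcases Ideal.map_eq_top_or_isMaximal_of_surjective _ hsurj hmax with h | h
  · exfalso
    rw [h, Ideal.comap_top] at hcm
    exact hmax.ne_top hcm.symm
  · exact h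

/-- classification of the maximal ideals -/
theorem classify (hn : 0 < n) (hc : Nat.Coprime n (Fintype.card k)) :
    ∃ e : MaximalSpectrum (AA k n) ≃
      (Σ d : {d : ℕ // d ∈ n.divisors}, {P : k[X] // P ∈ S k d.1}),
      ∀ m, Ideal.comap (AdjoinRoot.mk (X ^ n - 1 : k[X])) m.asIdeal =
        Ideal.span {(e m).2.1} := by
  choose g hg using exist (k := k) hn
  have huniq : ∀ x y : (Σ d : {d : ℕ // d ∈ n.divisors}, {P : k[X] // P ∈ S k d.1}),
      Ideal.span {x.2.1} = Ideal.span {y.2.1} → x = y := by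
    rintro ⟨⟨d, hd⟩, ⟨P, hP⟩⟩ ⟨⟨d', hd'⟩, ⟨P', hP'⟩⟩ h
    obtain ⟨h1, h2⟩ := uniq hn hc hd hd' hP hP' h
    subst h1
    subst h2
    rfl
  have hbij : Function.Bijective g := by
    constructor
    · intro m m' h
      apply MaximalSpectrum.ext
      apply Ideal.comap_injective_of_surjective _
        (AdjoinRoot.mk_surjective (g := (X ^ n - 1 : k[X])))
      rw [hg, hg, h]
    · intro x
      obtain ⟨m, hm⟩ := conv hn x
      exact ⟨m, huniq _ _ ((hg m).symm.trans hm)⟩
  exact ⟨Equiv.ofBijective g hbij, hg⟩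

theorem card_quot (m : MaximalSpectrum (AA k n)) (P : k[X]) (hP : P ≠ 0)
    (h : Ideal.comap (AdjoinRoot.mk (X ^ n - 1 : k[X])) m.asIdeal = Ideal.span {P}) :
    Nat.card (AA k n ⧸ m.asIdeal) = Nat.card k ^ P.natDegree := by
  have hsurj : Function.Surjective
      ((Ideal.Quotient.mk m.asIdeal).comp (AdjoinRoot.mk (X ^ n - 1 : k[X]))) :=
    Ideal.Quotient.mk_surjective.comp AdjoinRoot.mk_surjective
  have hker : RingHom.ker ((Ideal.Quotient.mk m.asIdeal).comp
      (AdjoinRoot.mk (X ^ n - 1 : k[X]))) = Ideal.span {P} := by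
    rw [← h]
    ext y
    rw [RingHom.mem_ker, RingHom.comp_apply, Ideal.Quotient.eq_zero_iff_mem, Ideal.mem_comap]
  have e1 := (Ideal.quotEquivOfEq hker).symm.trans
    (RingHom.quotientKerEquivOfSurjective hsurj)
  rw [← Nat.card_congr e1.toEquiv]
  have hfin : Module.Finite k (AdjoinRoot P) := (AdjoinRoot.powerBasis hP).finite
  have h2 : Nat.card (AdjoinRoot P) = Nat.card k ^ P.natDegree := by
    rw [Module.natCard_eq_pow_finrank (K := k), (AdjoinRoot.powerBasis hP).finrank,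
      AdjoinRoot.powerBasis_dim]
  exact h2

theorem order_eq {d : ℕ} (p f : ℕ) (hn : p.Coprime d) :
    orderOf (ZMod.unitOfCoprime _ (hn.pow_left f)) = orderOf ((p ^ f : ℕ) : ZMod d) := by
  rw [← orderOf_units, ZMod.coe_unitOfCoprime]

theorem core (hn : 0 < n) (hc : Nat.Coprime n (Fintype.card k)) :
    ∃ σ : MaximalSpectrum (AA k n) ≃ Idx n (Fintype.card k),
    ∀ m, Nat.card (AA k n ⧸ m.asIdeal) = (Fintype.card k) ^ deg (σ m) := by
  obtain ⟨p, hp, f, hpp, hcard⟩ := FiniteField.card' k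
  have hfact : Fact p.Prime := ⟨hpp⟩
  have hcop : ∀ d ∈ n.divisors, p.Coprime d := by
    intro d hd
    rw [hcard] at hc
    have h1 : Nat.Coprime n p := (Nat.coprime_pow_right_iff f.pos _ _).1 hc
    exact (h1.coprime_dvd_left (Nat.dvd_of_mem_divisors hd)).symm
  obtain ⟨e, he⟩ := classify hn hc
  have hS : ∀ d : {d : ℕ // d ∈ n.divisors},
      Fintype.card {P : k[X] // P ∈ S k d.1} =
        Nat.totient d.1 / orderOf ((Fintype.card k : ℕ) : ZMod d.1) := by
    intro d
    rw [Fintype.card_coe, hcard, ← order_eq p f (hcop d.1 d.2)]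
    exact normalizedFactors_cyclotomic_card hcard (hcop d.1 d.2)
  refine ⟨e.trans (Equiv.sigmaCongrRight fun d => Fintype.equivFinOfCardEq (hS d)), fun m => ?_⟩
  have hP := (e m).2.2
  rw [card_quot m (e m).2.1 (irr hP).ne_zero (he m), Nat.card_eq_fintype_card]
  congr 1
  have h1 := natDegree_of_mem_normalizedFactors_cyclotomic hcard (hcop _ (e m).1.2) (mem_S.1 hP)
  rw [h1, order_eq p f (hcop _ (e m).1.2), ← hcard]
  rfl

end

end FACTk

theorem sFACTk : S_FACTk.{u} := by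
  intro k _ _ n hn hc
  classical
  have : Fintype k := Fintype.ofFinite k
  rw [Nat.card_eq_fintype_card] at hc ⊢
  refine ⟨?_, FACTk.core hn hc⟩
  have h1 : (Ideal.span {(X ^ n - 1 : k[X])}).IsRadical :=
    isRadical_iff_span_singleton.1 (FACTk.sep hc).squarefree.isRadical
  exact (Ideal.isRadical_iff_quotient_reduced _).1 h1

end Pool.Agent.R823.CC
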