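import Pool.Agent.R823.CC.Stm

/-! Project CC (MP_975ab8_al): the main theorem from the pieces CIRC, CHAIN1, CHAIN2, VAL, UNIT,
DEG. -/

namespace Pool.Agent.R823.CC

open Polynomial IsLocalRing

universe u

namespace MAINx

theorem monic (R : Type u) [CommRing R] (n : ℕ) (hn : 0 < n) : (X ^ n - 1 : R[X]).Monic := by
  have := monic_X_pow_sub_C (1 : R) hn.ne'
  simpa using this

theorem card_AA (R : Type u) [CommRing R] [Finite R] [Nontrivial R] (n : ℕ) (hn : 0 < n) :
    Nat.card (AA R n) = Nat.card R ^ n := by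
  have hm := monic R n hn
  have hd : (AdjoinRoot.powerBasis' hm).dim = n := by
    rw [AdjoinRoot.powerBasis'_dim]
    have := natDegree_X_pow_sub_C (n := n) (r := (1 : R))
    simpa using this
  rw [Nat.card_congr (AdjoinRoot.powerBasis' hm).basis.equivFun.toEquiv, Nat.card_fun,
    Nat.card_eq_fintype_card (α := Fin _), Fintype.card_fin, hd]

theorem finite_AA (R : Type u) [CommRing R] [Finite R] [Nontrivial R] (n : ℕ) (hn : 0 < n) :
    Finite (AA R n) :=
  Finite.of_equiv _ (AdjoinRoot.powerBasis' (monic R n hn)).basis.equivFun.toEquiv.symm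

end MAINx

open MAINx in
theorem sMAIN : S_CIRC.{u} → S_CHAIN1.{u} → S_CHAIN2.{u} → S_VAL.{u} → S_UNIT.{u} → S_DEG →
    S_MAIN.{u} := by
  classical
  intro hCIRC hC1 hC2 hVAL hUNIT hDEG R _ _ _ hch γ hmax e hγe hγk q hq n hn hcop
  have hloc : IsLocalRing R := IsLocalRing.of_unique_max_ideal ⟨Ideal.span {γ}, hmax, by
    intro J hJ
    rcases hch J (Ideal.span {γ}) with h | h
    · exact hJ.eq_of_le hmax.ne_top h
    · exact (hmax.eq_of_le hJ.ne_top h).symm⟩
  have hM : maximalIdeal R = Ideal.span {γ} := (IsLocalRing.eq_maximalIdeal hmax).symm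
  have hQ : Nat.card (ResidueField R) = q := by
    change Nat.card (R ⧸ maximalIdeal R) = q
    rw [hM]
    exact hq
  have hfk : Finite (ResidueField R) := Finite.of_surjective _ (residue_surjective (R := R))
  have hq2 : 2 ≤ q := by
    rw [← hQ]
    exact Finite.one_lt_card
  have hcop' : Nat.Coprime n (Nat.card (ResidueField R)) := by rw [hQ]; exact hcop
  have hcardR : Nat.card R = q ^ e := by
    rw [← hQ]
    exact (hC1 R γ e hM hγe).2 hγk
  obtain ⟨hval, huniq, hcnt⟩ := hC2 R γ e hM hγe (by rw [hQ]; exact hcardR)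
  simp only [hQ] at hcnt
  have hfinA : Finite (AA R n) := finite_AA R n hn
  set c : R → ℕ := fun a => Nat.card {f : AA R n // Algebra.norm R f = a} with hc
  have hle : ∀ s, ∀ b b' : Rˣ, c (γ ^ s * b) ≤ c (γ ^ s * b') := by
    intro s b b'
    obtain ⟨w, hw⟩ := hUNIT R n hn hcop' (b⁻¹ * b')
    refine Nat.card_le_card_of_injective (fun f => ⟨f.1 * w, ?_⟩) ?_
    · rw [map_mul, f.2, hw, Units.val_mul, mul_assoc, ← mul_assoc (b : R), Units.mul_inv, one_mul]
    · intro f g h
      apply Subtype.ext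
      exact (Units.mul_left_inj w).mp (congrArg Subtype.val h)
  have hinv : ∀ s, ∀ b b' : Rˣ, c (γ ^ s * b) = c (γ ^ s * b') :=
    fun s b b' => le_antisymm (hle s b b') (hle s b' b)
  set g : ℕ → ℕ := fun s => Nat.card {f : AA R n // ∃ b : Rˣ, Algebra.norm R f = γ ^ s * b} with hg
  have hsum : ∀ s < e, ∀ b : Rˣ, g s = (q ^ (e - s) - q ^ (e - s - 1)) * c (γ ^ s * b) := by
    intro s hs b
    let e1 : {f : AA R n // ∃ b : Rˣ, Algebra.norm R f = γ ^ s * b} ≃
        Σ a : {x : R // ∃ u : Rˣ, x = γ ^ s * u}, {f : AA R n // Algebra.norm R f = a.1} :=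
      { toFun := fun f => ⟨⟨Algebra.norm R f.1, f.2⟩, ⟨f.1, rfl⟩⟩
        invFun := fun p => ⟨p.2.1, by
          obtain ⟨u, hu⟩ := p.1.2
          exact ⟨u, p.2.2.trans hu⟩⟩
        left_inv := fun f => rfl
        right_inv := by
          rintro ⟨⟨a, ha⟩, ⟨f, hf⟩⟩
          have hf' : Algebra.norm R f = a := hf
          subst hf'
          rfl }
    have := Fintype.ofFinite {x : R // ∃ u : Rˣ, x = γ ^ s * u}
    have h2 : ∀ a : {x : R // ∃ u : Rˣ, x = γ ^ s * u},
        Nat.card {f : AA R n // Algebra.norm R f = a.1} = c (γ ^ s * b) := by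
      intro a
      obtain ⟨u, hu⟩ := a.2
      rw [hu]
      exact hinv s u b
    calc g s = Nat.card (Σ a : {x : R // ∃ u : Rˣ, x = γ ^ s * u},
          {f : AA R n // Algebra.norm R f = a.1}) := Nat.card_congr e1
      _ = ∑ a : {x : R // ∃ u : Rˣ, x = γ ^ s * u},
          Nat.card {f : AA R n // Algebra.norm R f = a.1} := Nat.card_sigma
      _ = ∑ _a : {x : R // ∃ u : Rˣ, x = γ ^ s * u}, c (γ ^ s * b) :=
          Finset.sum_congr rfl fun a _ => h2 a
      _ = (q ^ (e - s) - q ^ (e - s - 1)) * c (γ ^ s * b) := by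
          rw [Finset.sum_const, Finset.card_univ, ← Nat.card_eq_fintype_card, hcnt s hs,
            smul_eq_mul]
  have hq0 : (0 : ℚ) < q := by
    have : 0 < q := by omega
    exact_mod_cast this
  have hq1 : (1 : ℚ) < q := by
    have : 1 < q := by omega
    exact_mod_cast this
  -- the cast of the number of elements of valuation `s`
  have hcast : ∀ s < e, (((q ^ (e - s) - q ^ (e - s - 1) : ℕ)) : ℚ) =
      (q : ℚ) ^ (e - s) - (q : ℚ) ^ (e - s - 1) := by
    intro s hs
    rw [Nat.cast_sub (Nat.pow_le_pow_right (by omega) (by omega))]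
    push_cast
    rfl
  have hform : ∀ s < e, ∀ b : Rˣ, (c (γ ^ s * b) : ℚ) =
      (q : ℚ) ^ (e * (n - 1)) * factor n q * P n q s := by
    intro s hs b
    have h1 := hVAL R γ hM e hγe hγk n hn hcop' s hs
    rw [hQ] at h1
    rw [(hDEG n q hn hq2 hcop).2.2.2] at h1
    have h3 : (g s : ℚ) = ((q : ℚ) ^ (e - s) - (q : ℚ) ^ (e - s - 1)) * (c (γ ^ s * b) : ℚ) := by
      rw [hsum s hs b, Nat.cast_mul, hcast s hs]
    have h4 : (g s : ℚ) = (P n q s : ℚ) * (q : ℚ) ^ (n * e - s) * ((1 - 1 / (q : ℚ)) * factor n q) :=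
      h1
    obtain ⟨k, hk⟩ : ∃ k, e = s + k + 1 := ⟨e - s - 1, by omega⟩
    have e1 : e - s = k + 1 := by omega
    have e2 : e - s - 1 = k := by omega
    obtain ⟨m, hm⟩ : ∃ m, n = m + 1 := ⟨n - 1, by omega⟩
    have e3 : n * e - s = e * (n - 1) + k + 1 := by
      rw [hm]
      have : (m + 1) * e = e * m + e := by ring
      rw [this, Nat.add_sub_cancel]
      omega
    rw [e2, e1] at h3
    rw [e3] at h4
    have h5 : ((q : ℚ) ^ (k + 1) - (q : ℚ) ^ k) * (c (γ ^ s * b) : ℚ) =
        ((q : ℚ) ^ (k + 1) - (q : ℚ) ^ k) *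
          ((q : ℚ) ^ (e * (n - 1)) * factor n q * P n q s) := by
      rw [← h3, h4]
      field_simp
      ring
    have h6 : ((q : ℚ) ^ (k + 1) - (q : ℚ) ^ k) ≠ 0 := by
      have : (q : ℚ) ^ (k + 1) - (q : ℚ) ^ k = (q : ℚ) ^ k * (q - 1) := by ring
      rw [this]
      exact mul_ne_zero (pow_ne_zero _ hq0.ne') (by linarith)
    exact mul_left_cancel₀ h6 h5
  refine ⟨?_, ?_⟩
  · intro s hs b hb
    obtain ⟨b, rfl⟩ := hb
    rw [hCIRC R n hn]
    exact hform s hs b
  · rw [hCIRC R n hn]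
    choose v hv w hw using hval
    let e2 : AA R n ≃ Σ s : Fin (e + 1), {f : AA R n // ∃ b : Rˣ,
        Algebra.norm R f = γ ^ (s : ℕ) * b} :=
      { toFun := fun f => ⟨⟨v (Algebra.norm R f), Nat.lt_succ_of_le (hv _)⟩,
          ⟨f, ⟨w (Algebra.norm R f), hw (Algebra.norm R f)⟩⟩⟩
        invFun := fun p => p.2.1
        left_inv := fun f => rfl
        right_inv := by
          rintro ⟨s, ⟨f, b, hb⟩⟩
          refine Sigma.subtype_ext (Fin.ext ?_) rfl
          exact huniq _ (hv _) s (Nat.lt_succ_iff.mp s.2) (w (Algebra.norm R f)) b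
            ((hw (Algebra.norm R f)).symm.trans hb) }
    have h1 : Nat.card (AA R n) = ∑ s ∈ Finset.range (e + 1), g s := by
      rw [Nat.card_congr e2, Nat.card_sigma, Finset.sum_range]
    have h2 : g e = c 0 := by
      refine Nat.card_congr (Equiv.subtypeEquivRight fun f => ?_)
      rw [hγe]
      constructor
      · rintro ⟨b, hb⟩
        rw [hb, zero_mul]
      · intro h
        exact ⟨1, by rw [h, zero_mul]⟩
    rw [Finset.sum_range_succ, h2, card_AA R n hn, hcardR] at h1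
    have h3 : ((q : ℚ) ^ e) ^ n = ∑ s ∈ Finset.range e, (g s : ℚ) + (c 0 : ℚ) := by
      exact_mod_cast h1
    have h4 : ∑ s ∈ Finset.range e, (g s : ℚ) = ∑ s ∈ Finset.range e,
        ((q : ℚ) ^ (e - s) - (q : ℚ) ^ (e - s - 1)) *
          ((q : ℚ) ^ (e * (n - 1)) * factor n q * P n q s) := by
      refine Finset.sum_congr rfl fun s hs => ?_
      rw [Finset.mem_range] at hs
      rw [hsum s hs 1, Nat.cast_mul, hcast s hs, hform s hs 1]
    rw [← h4, mul_comm n e, pow_mul, h3]
    ring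

end Pool.Agent.R823.CC
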