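import Pool.Agent.R823.CC.Stm

/-!
# The norm of `1 - ε + c ε` for an idempotent `ε`
-/

namespace Pool.Agent.R823.CC

open Polynomial IsLocalRing

universe u

/-- norm of `1 - ε + c ε` for an idempotent `ε` -/
theorem sNORM : S_NORM.{u} := by
  intro R _ _ _ A _ _ _ _ ε hε r hr c
  classical
  let p : A →ₗ[R] A := LinearMap.mulLeft R ε
  have hp : ∀ a, p a = ε * a := fun a => rfl
  let M : Submodule R A := LinearMap.range p
  let i : M →ₗ[R] A := M.subtype
  let π : A →ₗ[R] M := p.rangeRestrict
  have hiπ : i ∘ₗ π = p := by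
    ext a
    rfl
  have hπi : π ∘ₗ i = LinearMap.id := by
    apply LinearMap.ext
    intro x
    obtain ⟨y, hy⟩ := x.2
    apply Subtype.ext
    show p (x : A) = (x : A)
    rw [← hy, hp, hp, ← mul_assoc, hε]
  have hproj : Module.Projective R M := Module.Projective.of_split i π hπi
  have hfin : Module.Finite R M := Module.Finite.range p
  have hfree : Module.Free R M := Module.free_of_flat_of_isLocalRing
  let bM := Module.Free.chooseBasis R M
  let bA := Module.Free.chooseBasis R A
  set ιM := Module.Free.ChooseBasisIndex R M with hιM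
  have hcardM : Nat.card M = Nat.card R ^ Fintype.card ιM := by
    rw [Nat.card_congr bM.equivFun.toEquiv, Nat.card_fun, Nat.card_eq_fintype_card (α := ιM)]
  have hcardS : Nat.card (Ideal.span {ε} : Ideal A) = Nat.card M := by
    refine Nat.card_congr (Equiv.subtypeEquivRight ?_)
    intro x
    rw [Ideal.mem_span_singleton', LinearMap.mem_range]
    constructor
    · rintro ⟨a, rfl⟩
      exact ⟨a, by rw [hp, mul_comm]⟩
    · rintro ⟨a, rfl⟩
      exact ⟨a, by rw [hp, mul_comm]⟩
  have hr' : r = Fintype.card ιM := by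
    have h1 : Nat.card R ^ r = Nat.card R ^ Fintype.card ιM := by
      rw [← hr, hcardS, hcardM]
    exact Nat.pow_right_injective (Finite.one_lt_card (α := R)) h1
  have hlmul : Algebra.lmul R A (1 - ε + algebraMap R A c * ε) =
      1 + i ∘ₗ ((c - 1) • π) := by
    rw [LinearMap.comp_smul, hiπ]
    apply LinearMap.ext
    intro a
    show (1 - ε + algebraMap R A c * ε) * a = a + (c - 1) • (ε * a)
    rw [Algebra.smul_def, map_sub, map_one]
    ring
  rw [Algebra.norm_apply, hlmul, ← LinearMap.det_toMatrix bA, map_add, LinearMap.toMatrix_one,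
    LinearMap.toMatrix_comp bA bM bA, Matrix.det_one_add_mul_comm,
    ← LinearMap.toMatrix_comp bM bA bM, ← LinearMap.toMatrix_one bM, ← map_add,
    LinearMap.det_toMatrix]
  have h2 : (1 : M →ₗ[R] M) + ((c - 1) • π) ∘ₗ i = c • LinearMap.id := by
    rw [LinearMap.smul_comp, hπi]
    apply LinearMap.ext
    intro x
    apply Subtype.ext
    show (x : A) + (c - 1) • (x : A) = c • (x : A)
    rw [Algebra.smul_def, Algebra.smul_def, map_sub, map_one]
    ring
  rw [h2, LinearMap.det_smul, LinearMap.det_id, mul_one, hr',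
    Module.finrank_eq_card_basis bM]

end Pool.Agent.R823.CC
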