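import Mathlib
import Pool.Agent.R823.CC.Stm

/-! Piece NV: the norm of an element with prescribed component valuations. -/

namespace Pool.Agent.R823.CC

open Polynomial IsLocalRing

universe u

theorem sNV : S_NORM.{u} → S_NV.{u} := by
  classical
  intro hnorm R _ _ _ A _ _ _ _ _ γ e hγ r hbij hcard s f hf
  obtain ⟨E, hE⟩ : ∃ E : A ≃+* ((i : MaximalSpectrum A) → A ⧸ i.asIdeal ^ e),
      ∀ (a : A) (i : MaximalSpectrum A), E a i = Ideal.Quotient.mk (i.asIdeal ^ e) a :=
    ⟨RingEquiv.ofBijective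
      (RingHom.pi (fun i : MaximalSpectrum A => Ideal.Quotient.mk (i.asIdeal ^ e))) hbij,
      fun a i => rfl⟩
  choose u hu using hf
  obtain ⟨ε, hEε⟩ : ∃ ε : MaximalSpectrum A → A, ∀ i, E (ε i) = Pi.single i 1 :=
    ⟨fun i => E.symm (Pi.single i 1), fun i => E.apply_symm_apply _⟩
  have hidem : ∀ i, ε i * ε i = ε i := by
    intro i
    apply E.injective
    rw [map_mul, hEε, ← Pi.single_mul, one_mul]
  have hspan : ∀ i, Nat.card (Ideal.span {ε i} : Ideal A) = (Nat.card R) ^ (r i) := by
    intro i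
    rw [← hcard i]
    apply Nat.card_congr
    apply Equiv.ofBijective
      (fun x : (Ideal.span {ε i} : Ideal A) => Ideal.Quotient.mk (i.asIdeal ^ e) (x : A))
    constructor
    · rintro ⟨x, hx⟩ ⟨y, hy⟩ hxy
      simp only at hxy
      obtain ⟨a, rfl⟩ := Ideal.mem_span_singleton'.mp hx
      obtain ⟨b, rfl⟩ := Ideal.mem_span_singleton'.mp hy
      apply Subtype.ext
      simp only
      apply E.injective
      funext j
      by_cases hj : j = i
      · subst hj
        rw [hE, hE, hxy]
      · rw [map_mul, map_mul, hEε, Pi.mul_apply, Pi.mul_apply, Pi.single_eq_of_ne hj, mul_zero,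
          mul_zero]
    · intro z
      refine ⟨⟨E.symm (Pi.single i z), ?_⟩, ?_⟩
      · apply Ideal.mem_span_singleton'.mpr
        refine ⟨E.symm (Pi.single i z), ?_⟩
        apply E.injective
        rw [map_mul, hEε, E.apply_symm_apply, ← Pi.single_mul, mul_one]
      · simp only
        rw [← hE, E.apply_symm_apply, Pi.single_eq_same]
  have hn : ∀ i, Algebra.norm R (1 - ε i + algebraMap R A (γ ^ s i) * ε i) =
      (γ ^ s i) ^ r i := fun i => hnorm R A (ε i) (hidem i) (r i) (hspan i) (γ ^ s i)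
  -- the unit
  obtain ⟨w, hw⟩ : ∃ w : A, ∀ i, E w i = u i :=
    ⟨E.symm (fun i => (u i : A ⧸ i.asIdeal ^ e)), fun i => by rw [E.apply_symm_apply]⟩
  have hwu : IsUnit w := by
    refine IsUnit.of_mul_eq_one (E.symm (fun i => ((u i)⁻¹ : (A ⧸ i.asIdeal ^ e)ˣ))) ?_
    apply E.injective
    rw [map_mul, E.apply_symm_apply, map_one]
    funext i
    rw [Pi.mul_apply, hw, Pi.one_apply, Units.mul_inv]
  have hfw : f = w * ∏ i, (1 - ε i + algebraMap R A (γ ^ s i) * ε i) := by
    apply E.injective
    rw [map_mul, map_prod]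
    funext j
    rw [Pi.mul_apply, Finset.prod_apply, hE, hu, hw]
    rw [Finset.prod_eq_single j]
    · rw [map_add, map_sub, map_mul, map_one, hEε, Pi.add_apply, Pi.sub_apply, Pi.mul_apply,
        Pi.single_eq_same, Pi.one_apply, sub_self, zero_add, mul_one, hE, map_pow, map_pow,
        mul_comm]
    · intro i _ hij
      rw [map_add, map_sub, map_mul, map_one, hEε, Pi.add_apply, Pi.sub_apply, Pi.mul_apply,
        Pi.single_eq_of_ne hij.symm, mul_zero, Pi.one_apply, sub_zero, add_zero]
    · intro h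
      exact absurd (Finset.mem_univ j) h
  have hb : IsUnit (Algebra.norm R w) := hwu.map _
  obtain ⟨b, hb⟩ := hb
  refine ⟨b, ?_⟩
  rw [hfw, map_mul, map_prod, ← hb, Finset.prod_congr rfl (fun i _ => hn i), mul_comm]
  congr 1
  rw [← Finset.prod_pow_eq_pow_sum]
  apply Finset.prod_congr rfl
  intro i _
  rw [← pow_mul, mul_comm]

end Pool.Agent.R823.CC
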