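import Pool.Agent.R823.CC.Stm

/-!
# Arithmetic of the final summation
-/

namespace Pool.Agent.R823.CC

/-- arithmetic of the final summation -/
theorem sSUM : S_SUM := by
  intro ι _ _ m q e s hq hm hs
  have hq0 : (q : ℚ) ≠ 0 := by
    have : q ≠ 0 := by omega
    exact_mod_cast this
  set F := (Fintype.piFinset (fun _ : ι => Finset.range e)).filter
    (fun f => ∑ i, m i * f i = s) with hF
  have hcard : Nat.card {f : ι → ℕ // ∑ i, m i * f i = s} = F.card := by
    refine Nat.subtype_card F ?_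
    intro f
    rw [hF, Finset.mem_filter, Fintype.mem_piFinset]
    constructor
    · exact fun h => h.2
    · intro h
      refine ⟨fun i => ?_, h⟩
      rw [Finset.mem_range]
      have h1 : m i * f i ≤ ∑ i, m i * f i :=
        Finset.single_le_sum (f := fun i => m i * f i) (fun _ _ => Nat.zero_le _)
          (Finset.mem_univ i)
      have h2 : f i ≤ m i * f i := Nat.le_mul_of_pos_left _ (hm i)
      omega
  have hterm : ∀ f ∈ F, ((∏ i, ((q ^ m i) ^ (e - f i) - (q ^ m i) ^ (e - f i - 1)) : ℕ) : ℚ) =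
      (q : ℚ) ^ ((∑ i, m i) * e - s) * ∏ i, (1 - 1 / (q : ℚ) ^ m i) := by
    intro f hf
    rw [hF, Finset.mem_filter, Fintype.mem_piFinset] at hf
    obtain ⟨hf1, hf2⟩ := hf
    have hlt : ∀ i, f i < e := fun i => Finset.mem_range.1 (hf1 i)
    have h1 : ∀ i, (((q ^ m i) ^ (e - f i) - (q ^ m i) ^ (e - f i - 1) : ℕ) : ℚ) =
        (q : ℚ) ^ (m i * (e - f i)) * (1 - 1 / (q : ℚ) ^ m i) := by
      intro i
      have hle : (q ^ m i) ^ (e - f i - 1) ≤ (q ^ m i) ^ (e - f i) :=
        Nat.pow_le_pow_right (Nat.pow_pos (by omega)) (by omega)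
      rw [Nat.cast_sub hle]
      push_cast
      obtain ⟨t, ht⟩ : ∃ t, e - f i = t + 1 := ⟨e - f i - 1, by have := hlt i; omega⟩
      rw [ht, Nat.add_sub_cancel]
      rw [← pow_mul, ← pow_mul, mul_add, pow_add, mul_one]
      field_simp
    rw [Nat.cast_prod, Finset.prod_congr rfl (fun i _ => h1 i), Finset.prod_mul_distrib,
      Finset.prod_pow_eq_pow_sum]
    congr 2
    have h3 : (∑ i, m i * (e - f i)) + s = (∑ i, m i) * e := by
      rw [← hf2, ← Finset.sum_add_distrib, Finset.sum_mul]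
      refine Finset.sum_congr rfl (fun i _ => ?_)
      rw [← mul_add, Nat.sub_add_cancel (hlt i).le]
    omega
  rw [Nat.cast_sum, Finset.sum_congr rfl hterm, Finset.sum_const, nsmul_eq_mul, hcard]
  ring

end Pool.Agent.R823.CC
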