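import Pool.Agent.R823.CC.Stm

/-! UNIT: every unit of `R` is the norm of a unit of `R[x]/(x^n-1)`. -/

namespace Pool.Agent.R823.CC

open Polynomial IsLocalRing

universe u

theorem unit_cast (R : Type u) [CommRing R] [Finite R] [IsLocalRing R] (n : ℕ)
    (hn : Nat.Coprime n (Nat.card (ResidueField R))) : IsUnit (n : R) := by
  rw [← residue_ne_zero_iff_isUnit]
  intro h0
  haveI : Finite (ResidueField R) := Finite.of_surjective _ (residue_surjective (R := R))
  haveI := Fintype.ofFinite (ResidueField R)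
  have h1 : ((Nat.card (ResidueField R) : ℕ) : ResidueField R) = 0 := by
    rw [Nat.card_eq_fintype_card]
    exact Nat.cast_card_eq_zero _
  have h2 : ((n : ℕ) : ResidueField R) = 0 := by
    rw [← map_natCast (residue R) n]
    exact h0
  obtain ⟨a, b, hab⟩ := Nat.isCoprime_iff_coprime.2 hn
  have h3 := congrArg (fun z : ℤ => (z : ResidueField R)) hab
  simp only [Int.cast_add, Int.cast_mul, Int.cast_natCast, h1, h2, mul_zero, add_zero,
    Int.cast_one] at h3
  exact zero_ne_one h3

theorem sUNIT (hN : S_NORM.{u}) : S_UNIT.{u} := by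
  intro R _ _ _ n hn hco b
  have hmon : (X ^ n - 1 : R[X]).Monic := by
    have := monic_X_pow_sub_C (1 : R) hn.ne'
    simpa using this
  haveI : Module.Free R (AA R n) := hmon.free_adjoinRoot
  haveI : Module.Finite R (AA R n) := hmon.finite_adjoinRoot
  obtain ⟨ν, hν⟩ := (unit_cast R n hco).exists_left_inv
  set x : AA R n := AdjoinRoot.root (X ^ n - 1 : R[X]) with hx
  have hxn : x ^ n - 1 = 0 := by
    have h1 : AdjoinRoot.mk (X ^ n - 1 : R[X]) (X ^ n - 1) = 0 := AdjoinRoot.mk_self
    rw [map_sub, map_pow, AdjoinRoot.mk_X, map_one] at h1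
    exact h1
  set σ : AA R n := ∑ j ∈ Finset.range n, x ^ j with hσ
  have hxσ : x * σ = σ := by
    have h1 : (x - 1) * σ = x ^ n - 1 := mul_geom_sum x n
    rw [hxn] at h1
    linear_combination h1
  set N : AA R n := algebraMap R (AA R n) ν with hNd
  have hNn : N * (n : AA R n) = 1 := by
    rw [hNd, ← map_natCast (algebraMap R (AA R n)) n, ← map_mul, hν, map_one]
  set ε : AA R n := N * σ with hε
  have hxε : x * ε = ε := by
    rw [hε]
    linear_combination N * hxσ
  have hσσ : σ * σ = (n : AA R n) * σ := by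
    have h1 : ∀ j : ℕ, x ^ j * σ = σ := by
      intro j
      induction j with
      | zero => simp
      | succ j ih => rw [pow_succ, mul_assoc, hxσ, ih]
    calc σ * σ = (∑ j ∈ Finset.range n, x ^ j) * σ := by rw [← hσ]
      _ = ∑ j ∈ Finset.range n, x ^ j * σ := Finset.sum_mul _ _ _
      _ = ∑ _j ∈ Finset.range n, σ := Finset.sum_congr rfl (fun j _ => h1 j)
      _ = _ := by rw [Finset.sum_const, Finset.card_range, nsmul_eq_mul]
  have hεε : ε * ε = ε := by
    rw [hε]
    linear_combination N ^ 2 * hσσ + N * σ * hNn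
  -- every multiple of `ε` is a scalar multiple
  have hmul : ∀ f : AA R n, ∃ c : R, f * ε = algebraMap R (AA R n) c * ε := by
    intro f
    induction f using AdjoinRoot.induction_on with
    | ih p =>
      induction p using Polynomial.induction_on' with
      | add p q hp hq =>
        obtain ⟨c, hc⟩ := hp
        obtain ⟨d, hd⟩ := hq
        refine ⟨c + d, ?_⟩
        rw [map_add, map_add, add_mul, add_mul, hc, hd]
      | monomial k a =>
        refine ⟨a, ?_⟩
        have h1 : ∀ j : ℕ, x ^ j * ε = ε := by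
          intro j
          induction j with
          | zero => simp
          | succ j ih => rw [pow_succ, mul_assoc, hxε, ih]
        rw [← C_mul_X_pow_eq_monomial, map_mul, map_pow, AdjoinRoot.mk_X, mul_assoc]
        have h2 := h1 k
        rw [hx] at h2
        rw [h2]
        rfl
  -- evaluation at one
  obtain ⟨φ, hφ1, hφ2⟩ : ∃ φ : AA R n →+* R, φ x = 1 ∧ ∀ c, φ (algebraMap R (AA R n) c) = c := by
    refine ⟨AdjoinRoot.lift (RingHom.id R) 1 (by simp), ?_, ?_⟩
    · exact AdjoinRoot.lift_root _
    · intro c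
      exact AdjoinRoot.lift_of _
  have hφε : φ ε = 1 := by
    rw [hε, map_mul, hNd, hφ2, hσ, map_sum]
    simp only [map_pow, hφ1, one_pow, Finset.sum_const, Finset.card_range, nsmul_eq_mul, mul_one]
    exact hν
  have hcard : Nat.card (Ideal.span {ε} : Ideal (AA R n)) = (Nat.card R) ^ 1 := by
    rw [pow_one]
    symm
    apply Nat.card_eq_of_bijective (fun c : R =>
      (⟨algebraMap R (AA R n) c * ε, Ideal.mul_mem_left _ _ (Ideal.subset_span rfl)⟩ :
        (Ideal.span {ε} : Ideal (AA R n))))
    constructor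
    · intro c d hcd
      have h1 := congrArg (fun z => φ z.1) hcd
      simpa only [map_mul, hφ2, hφε, mul_one] using h1
    · rintro ⟨y, hy⟩
      obtain ⟨f, hf⟩ := Ideal.mem_span_singleton'.1 hy
      obtain ⟨c, hc⟩ := hmul f
      refine ⟨c, ?_⟩
      apply Subtype.ext
      show algebraMap R (AA R n) c * ε = y
      rw [← hc, hf]
  have hnorm := hN R (AA R n) ε hεε 1 hcard (b : R)
  rw [pow_one] at hnorm
  have hB : algebraMap R (AA R n) (b : R) * algebraMap R (AA R n) ((b⁻¹ : Rˣ) : R) = 1 := by
    rw [← map_mul, Units.mul_inv, map_one]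
  refine ⟨⟨1 - ε + algebraMap R (AA R n) (b : R) * ε,
    1 - ε + algebraMap R (AA R n) ((b⁻¹ : Rˣ) : R) * ε, ?_, ?_⟩, hnorm⟩
  · linear_combination (1 - algebraMap R (AA R n) (b : R) -
      algebraMap R (AA R n) ((b⁻¹ : Rˣ) : R) + algebraMap R (AA R n) (b : R) *
      algebraMap R (AA R n) ((b⁻¹ : Rˣ) : R)) * hεε + ε * hB
  · linear_combination (1 - algebraMap R (AA R n) (b : R) -
      algebraMap R (AA R n) ((b⁻¹ : Rˣ) : R) + algebraMap R (AA R n) (b : R) *
      algebraMap R (AA R n) ((b⁻¹ : Rˣ) : R)) * hεε + ε * hB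

end Pool.Agent.R823.CC
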