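import Pool.Agent.R823.CC.Stm

/-! CC-VAL: counting elements with given norm valuation. -/

namespace Pool.Agent.R823.CC

open Polynomial IsLocalRing

universe u

namespace Val

theorem prod_eq_forall {ι : Type*} [Fintype ι] (x y : ι → ℕ) (hx : ∀ i, 0 < x i)
    (hle : ∀ i, x i ≤ y i) (h : ∏ i, x i = ∏ i, y i) : ∀ i, x i = y i := by
  by_contra hc
  push Not at hc
  obtain ⟨i, hi⟩ := hc
  have := Finset.prod_lt_prod (s := Finset.univ) (f := x) (g := y) (fun j _ => hx j)
    (fun j _ => hle j) ⟨i, Finset.mem_univ i, lt_of_le_of_ne (hle i) hi⟩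
  omega

/-- counting -/
theorem count {ι : Type} [Fintype ι] [DecidableEq ι] (B : ι → Type u) [∀ i, Finite (B i)]
    (val : ∀ i, B i → ℕ) (W : Finset (ι → ℕ)) :
    Nat.card {x : ∀ i, B i // (fun i => val i (x i)) ∈ W} =
      ∑ w ∈ W, ∏ i, Nat.card {y : B i // val i y = w i} := by
  classical
  have hF : ∀ i, Fintype (B i) := fun i => Fintype.ofFinite _
  rw [Nat.card_eq_fintype_card, Fintype.card_subtype]
  rw [Finset.card_eq_sum_card_fiberwise (f := fun (x : ∀ i, B i) (i : ι) => val i (x i)) (t := W)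
    (fun x hx => by simpa using hx)]
  refine Finset.sum_congr rfl (fun w hw => ?_)
  have e : ((Finset.univ.filter (fun x : ∀ i, B i => (fun i => val i (x i)) ∈ W)).filter
      (fun x => (fun i => val i (x i)) = w)) =
      Fintype.piFinset (fun i => Finset.univ.filter (fun y : B i => val i y = w i)) := by
    ext x
    simp only [Finset.mem_filter, Finset.mem_univ, true_and, Fintype.mem_piFinset]
    constructor
    · rintro ⟨-, h⟩ i
      exact congrFun h i
    · intro h
      have h2 : (fun i => val i (x i)) = w := funext h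
      exact ⟨by rw [h2]; exact hw, h2⟩
  rw [e, Fintype.card_piFinset]
  refine Finset.prod_congr rfl (fun i _ => ?_)
  rw [Nat.card_eq_fintype_card, Fintype.card_subtype]

end Val

open Val in
theorem sVAL : S_CHAIN1.{u} → S_CHAIN2.{u} → S_DECOMP.{u} → S_NV.{u} → S_FACT.{u} → S_SUM →
    S_DEG → S_VAL.{u} := by
  classical
  intro h1 h2 h3 h4 h5 h6 h7 R _ _ _ γ hγ e he hk n hn hc s hs
  have hfinres : Finite (ResidueField R) :=
    Finite.of_surjective _ (Ideal.Quotient.mk_surjective (I := maximalIdeal R))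
  have hq2 : 2 ≤ Nat.card (ResidueField R) := Finite.one_lt_card
  obtain ⟨hd1, hd2, -, -⟩ := h7 n (Nat.card (ResidueField R)) hn hq2 hc
  have hmonic : (X ^ n - 1 : R[X]).Monic := by
    simpa using monic_X_pow_sub_C (1 : R) hn.ne'
  have i1 : Module.Finite R (AA R n) := hmonic.finite_adjoinRoot
  have i2 : Module.Free R (AA R n) := hmonic.free_adjoinRoot
  have i3 : Finite (AA R n) := Module.finite_of_finite R
  have i4 : ∀ I : Ideal (AA R n), Finite (AA R n ⧸ I) := fun I =>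
    Finite.of_surjective _ (Ideal.Quotient.mk_surjective (I := I))
  have hcardA : Nat.card (AA R n) = Nat.card R ^ n := by
    have hdim : (AdjoinRoot.powerBasis' hmonic).dim = n := by
      rw [AdjoinRoot.powerBasis'_dim]
      have : (X ^ n - 1 : R[X]) = X ^ n - C 1 := by simp
      rw [this, natDegree_X_pow_sub_C]
    rw [Nat.card_congr (AdjoinRoot.powerBasis' hmonic).basis.equivFun.toEquiv, Nat.card_fun,
      Nat.card_eq_fintype_card (α := Fin _), Fintype.card_fin, hdim]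
  obtain ⟨hred, σ, hσ⟩ := h5 R γ hγ ⟨e, he⟩ n hn hc
  obtain ⟨γA, hγA⟩ : ∃ γA : AA R n, γA = algebraMap R (AA R n) γ := ⟨_, rfl⟩
  rw [← hγA] at hred
  have hγAe : γA ^ e = 0 := by rw [hγA, ← map_pow, he, map_zero]
  obtain ⟨hbij, hloc⟩ := h3 (AA R n) γA e (by omega) hγAe hred
  have fS : Fintype (MaximalSpectrum (AA R n)) := Fintype.ofEquiv _ σ.symm
  have hcardR : Nat.card R = Nat.card (ResidueField R) ^ e := (h1 R γ e hγ he).2 hk
  -- cardinalities of the components
  have hle : ∀ i : MaximalSpectrum (AA R n), Nat.card (AA R n ⧸ i.asIdeal ^ e) ≤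
      (Nat.card (ResidueField R) ^ deg (σ i)) ^ e := by
    intro i
    obtain ⟨hl, hm, hcd⟩ := hloc i
    have := (h1 (AA R n ⧸ i.asIdeal ^ e) (Ideal.Quotient.mk (i.asIdeal ^ e) γA) e hm
      (by rw [← map_pow, hγAe, map_zero])).1
    rwa [hcd, hσ] at this
  have hpr : ∏ i : MaximalSpectrum (AA R n), Nat.card (AA R n ⧸ i.asIdeal ^ e) =
      ∏ i : MaximalSpectrum (AA R n), (Nat.card (ResidueField R) ^ deg (σ i)) ^ e := by
    rw [← Nat.card_pi, ← Nat.card_congr (Equiv.ofBijective _ hbij), hcardA, hcardR,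
      Finset.prod_pow, Finset.prod_pow_eq_pow_sum, Equiv.sum_comp σ (fun j => deg j), hd2,
      ← pow_mul, ← pow_mul, mul_comm]
  have heq := prod_eq_forall _ _ (fun i : MaximalSpectrum (AA R n) =>
    (Nat.card_pos : 0 < Nat.card (AA R n ⧸ i.asIdeal ^ e))) hle hpr
  -- structure of the components
  have hC : ∀ i : MaximalSpectrum (AA R n),
      (∀ x : AA R n ⧸ i.asIdeal ^ e, ∃ t ≤ e, ∃ u : (AA R n ⧸ i.asIdeal ^ e)ˣ,
        x = (Ideal.Quotient.mk (i.asIdeal ^ e) γA) ^ t * u) ∧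
      (∀ t ≤ e, ∀ t' ≤ e, ∀ u v : (AA R n ⧸ i.asIdeal ^ e)ˣ,
        (Ideal.Quotient.mk (i.asIdeal ^ e) γA) ^ t * (u : AA R n ⧸ i.asIdeal ^ e) =
        (Ideal.Quotient.mk (i.asIdeal ^ e) γA) ^ t' * v → t = t') ∧
      (∀ t < e, Nat.card {x : AA R n ⧸ i.asIdeal ^ e // ∃ u : (AA R n ⧸ i.asIdeal ^ e)ˣ,
        x = (Ideal.Quotient.mk (i.asIdeal ^ e) γA) ^ t * u} =
        (Nat.card (ResidueField R) ^ deg (σ i)) ^ (e - t) -
          (Nat.card (ResidueField R) ^ deg (σ i)) ^ (e - t - 1)) := by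
    intro i
    obtain ⟨hl, hm, hcd⟩ := hloc i
    have := h2 (AA R n ⧸ i.asIdeal ^ e) (Ideal.Quotient.mk (i.asIdeal ^ e) γA) e hm
      (by rw [← map_pow, hγAe, map_zero]) (by rw [hcd, hσ]; exact heq i)
    rwa [hcd, hσ] at this
  obtain ⟨-, hR2, -⟩ := h2 R γ e hγ he hcardR
  -- valuations
  choose val hval using (fun j : Idx n (Nat.card (ResidueField R)) => (hC (σ.symm j)).1)
  have hval_iff : ∀ (j : Idx n (Nat.card (ResidueField R)))
      (x : AA R n ⧸ (σ.symm j).asIdeal ^ e) (t : ℕ), t ≤ e →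
      ((∃ u : (AA R n ⧸ (σ.symm j).asIdeal ^ e)ˣ,
        x = (Ideal.Quotient.mk ((σ.symm j).asIdeal ^ e) γA) ^ t * u) ↔ val j x = t) := by
    intro j x t ht
    obtain ⟨hv1, u', hu'⟩ := hval j x
    constructor
    · rintro ⟨u, hu⟩
      exact (hC (σ.symm j)).2.1 _ hv1 t ht u' u (by rw [← hu', ← hu])
    · rintro rfl
      exact ⟨u', hu'⟩
  obtain ⟨W, hW⟩ : ∃ W : Finset (Idx n (Nat.card (ResidueField R)) → ℕ),
    W = (Fintype.piFinset (fun _ => Finset.range e)).filter (fun w => ∑ j, deg j * w j = s) :=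
    ⟨_, rfl⟩
  have hbij' : Function.Bijective (fun (f : AA R n) (j : Idx n (Nat.card (ResidueField R))) =>
      Ideal.Quotient.mk ((σ.symm j).asIdeal ^ e) f) := by
    have e1 := (Equiv.piCongrLeft' (fun i : MaximalSpectrum (AA R n) =>
      AA R n ⧸ i.asIdeal ^ e) σ).bijective
    exact e1.comp hbij
  have hN : ∀ f : AA R n, ∃ b : Rˣ, Algebra.norm R f =
      γ ^ (∑ j, deg j * val j (Ideal.Quotient.mk ((σ.symm j).asIdeal ^ e) f)) * b := by
    intro f
    obtain ⟨w, hw⟩ : ∃ w : Idx n (Nat.card (ResidueField R)) → ℕ,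
      ∀ j, w j = val j (Ideal.Quotient.mk ((σ.symm j).asIdeal ^ e) f) := ⟨_, fun j => rfl⟩
    obtain ⟨Q, hQ⟩ : ∃ Q : MaximalSpectrum (AA R n) → ℕ → Prop, ∀ i t, Q i t ↔
        ∃ u : (AA R n ⧸ i.asIdeal ^ e)ˣ, Ideal.Quotient.mk (i.asIdeal ^ e) f =
        (Ideal.Quotient.mk (i.asIdeal ^ e) γA) ^ t * u := ⟨fun i t => _, fun i t => Iff.rfl⟩
    have hQ1 : ∀ j, Q (σ.symm j) (w j) := by
      intro j
      rw [hQ, hw]
      exact (hval j _).2
    have hQ2 : ∀ i, Q i (w (σ i)) := by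
      intro i
      have := hQ1 (σ i)
      rwa [σ.symm_apply_apply] at this
    have hr : ∀ i : MaximalSpectrum (AA R n), Nat.card (AA R n ⧸ i.asIdeal ^ e) =
        (Nat.card R) ^ (deg (σ i)) := by
      intro i
      rw [heq i, hcardR, ← pow_mul, ← pow_mul, mul_comm]
    obtain ⟨b, hb⟩ := h4 R (AA R n) γ e he (fun i => deg (σ i)) hbij hr (fun i => w (σ i)) f
      (fun i => by
        rw [← hγA]
        exact (hQ i _).1 (hQ2 i))
    refine ⟨b, ?_⟩
    rw [hb, Equiv.sum_comp σ (fun j => deg j * w j)]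
    simp only [hw]
  have hmem : ∀ f : AA R n, (∃ b : Rˣ, Algebra.norm R f = γ ^ s * b) ↔
      (fun j => val j (Ideal.Quotient.mk ((σ.symm j).asIdeal ^ e) f)) ∈ W := by
    intro f
    obtain ⟨b', hb'⟩ := hN f
    rw [hW, Finset.mem_filter, Fintype.mem_piFinset]
    constructor
    · rintro ⟨b, hb⟩
      have hsum : ∑ j, deg j * val j (Ideal.Quotient.mk ((σ.symm j).asIdeal ^ e) f) = s := by
        rw [hb] at hb'
        rcases le_or_gt (∑ j, deg j * val j (Ideal.Quotient.mk ((σ.symm j).asIdeal ^ e) f)) e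
          with hle | hgt
        · exact (hR2 s hs.le _ hle b b' hb').symm
        · exfalso
          have hz : γ ^ (∑ j, deg j * val j (Ideal.Quotient.mk ((σ.symm j).asIdeal ^ e) f)) = 0 :=
            pow_eq_zero_of_le hgt.le he
          rw [hz, zero_mul] at hb'
          have := hR2 s hs.le e le_rfl b 1 (by rw [hb', he, zero_mul])
          omega
      refine ⟨fun j => ?_, hsum⟩
      rw [Finset.mem_range]
      have h8 : deg j * val j (Ideal.Quotient.mk ((σ.symm j).asIdeal ^ e) f) ≤ s := by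
        rw [← hsum]
        exact Finset.single_le_sum
          (f := fun j => deg j * val j (Ideal.Quotient.mk ((σ.symm j).asIdeal ^ e) f))
          (fun i _ => Nat.zero_le _) (Finset.mem_univ j)
      have h9 := Nat.le_mul_of_pos_left
        (val j (Ideal.Quotient.mk ((σ.symm j).asIdeal ^ e) f)) (hd1 j)
      omega
    · rintro ⟨-, h⟩
      rw [h] at hb'
      exact ⟨b', hb'⟩
  have hcount : Nat.card {f : AA R n // ∃ b : Rˣ, Algebra.norm R f = γ ^ s * b} =
      ∑ w ∈ W, ∏ j, ((Nat.card (ResidueField R) ^ deg j) ^ (e - w j) -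
        (Nat.card (ResidueField R) ^ deg j) ^ (e - w j - 1)) := by
    have e1 : Nat.card {f : AA R n // ∃ b : Rˣ, Algebra.norm R f = γ ^ s * b} =
        Nat.card {x : ∀ j : Idx n (Nat.card (ResidueField R)),
          AA R n ⧸ (σ.symm j).asIdeal ^ e // (fun j => val j (x j)) ∈ W} :=
      Nat.card_congr ((Equiv.ofBijective _ hbij').subtypeEquiv hmem)
    rw [e1, count (fun j : Idx n (Nat.card (ResidueField R)) =>
      AA R n ⧸ (σ.symm j).asIdeal ^ e) val W]
    refine Finset.sum_congr rfl (fun w hw => Finset.prod_congr rfl (fun j _ => ?_))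
    rw [hW, Finset.mem_filter, Fintype.mem_piFinset] at hw
    have hwj := Finset.mem_range.1 (hw.1 j)
    have e2 := (hC (σ.symm j)).2.2 (w j) hwj
    rw [σ.apply_symm_apply] at e2
    rw [← e2]
    exact Nat.card_congr (Equiv.subtypeEquivRight (fun x => (hval_iff j x (w j) hwj.le).symm))
  rw [hcount, hW]
  have h9 := h6 (Idx n (Nat.card (ResidueField R))) (fun j => deg j)
    (Nat.card (ResidueField R)) e s hq2 hd1 hs
  rw [hd2] at h9
  exact h9

end Pool.Agent.R823.CC
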