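import Pool.Agent.R823.CC.CIRC
import Pool.Agent.R823.CC.CHAIN1
import Pool.Agent.R823.CC.CHAIN2
import Pool.Agent.R823.CC.DECOMP
import Pool.Agent.R823.CC.NORM
import Pool.Agent.R823.CC.NV
import Pool.Agent.R823.CC.FACTk
import Pool.Agent.R823.CC.FACT
import Pool.Agent.R823.CC.SUM
import Pool.Agent.R823.CC.DEG
import Pool.Agent.R823.CC.UNIT
import Pool.Agent.R823.CC.VAL
import Pool.Agent.R823.CC.MAIN

namespace Pool.Agent.R823.CC

universe u

theorem main : S_MAIN.{u} :=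
  sMAIN sCIRC sCHAIN1 sCHAIN2
    (sVAL sCHAIN1 sCHAIN2 sDECOMP (sNV sNORM) (sFACT sFACTk) sSUM sDEG)
    (sUNIT sNORM) sDEG

end Pool.Agent.R823.CC
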